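import Mathlib

/-!
# A finite extension which is trivial over a point
-/

set_option autoImplicit false

namespace Pool.Agent.TH119.GO

open Polynomial

section

variable {k A B : Type*} [Field k] [CommRing A] [CommRing B] [Algebra k A] [Algebra k B]
  [Algebra A B] [IsScalarTower k A B] (e : B →ₐ[k] k)

/-- The ideal of the point in `A`. -/
def mm (A : Type*) {B : Type*} [CommRing A] [CommRing B] [Algebra k A] [Algebra k B]
    [Algebra A B] [IsScalarTower k A B] (e : B →ₐ[k] k) : Ideal A :=
  RingHom.ker ((e : B →+* k).comp (algebraMap A B))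

theorem mem_mm {a : A} : a ∈ mm A e ↔ e (algebraMap A B a) = 0 := Iff.rfl

theorem sub_mem_mm (a : A) : a - algebraMap k A (e (algebraMap A B a)) ∈ mm A e := by
  rw [mem_mm, map_sub, map_sub, ← IsScalarTower.algebraMap_apply, AlgHom.commutes]
  exact sub_self _

theorem ker_le_radical [IsAlgClosed k] [Algebra.IsIntegral A B]
    (huniq : ∀ y : B →ₐ[k] k, (∀ a : A, y (algebraMap A B a) = e (algebraMap A B a)) →
      ∀ b, y b = e b) :
    RingHom.ker (e : B →+* k) ≤ ((mm A e).map (algebraMap A B)).radical := by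
  intro x hx
  rw [Ideal.radical_eq_sInf, Submodule.mem_sInf]
  rintro P ⟨hJP, hP⟩
  have hmk : ∀ a : A, Ideal.Quotient.mk P (algebraMap A B a) =
      algebraMap k (B ⧸ P) (e (algebraMap A B a)) := by
    intro a
    have h2 : algebraMap A B (a - algebraMap k A (e (algebraMap A B a))) ∈ P :=
      hJP (Ideal.mem_map_of_mem _ (sub_mem_mm e a))
    rw [map_sub] at h2
    rw [Ideal.Quotient.eq.2 h2, ← IsScalarTower.algebraMap_apply]
    rfl
  have hint : Algebra.IsIntegral k (B ⧸ P) := by
    refine ⟨fun b => ?_⟩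
    obtain ⟨b, rfl⟩ := Ideal.Quotient.mk_surjective b
    obtain ⟨F, hF, hF0⟩ := Algebra.IsIntegral.isIntegral (R := A) b
    refine ⟨F.map ((e : B →+* k).comp (algebraMap A B)), hF.map _, ?_⟩
    rw [eval₂_map]
    have h2 := congrArg (Ideal.Quotient.mk P) hF0
    rw [Polynomial.hom_eval₂, map_zero] at h2
    have h3 : (Ideal.Quotient.mk P).comp (algebraMap A B) =
        (algebraMap k (B ⧸ P)).comp ((e : B →+* k).comp (algebraMap A B)) :=
      RingHom.ext hmk
    rw [← h3]
    exact h2
  have hbij := IsAlgClosed.algebraMap_bijective_of_isIntegral (k := k) (K := B ⧸ P)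
  let ε : k ≃ₐ[k] (B ⧸ P) := AlgEquiv.ofBijective (Algebra.ofId k (B ⧸ P)) hbij
  let y : B →ₐ[k] k := (ε.symm : (B ⧸ P) →ₐ[k] k).comp (Ideal.Quotient.mkₐ k P)
  have h2 : y x = e x := by
    refine huniq y (fun a => ?_) x
    show ε.symm (Ideal.Quotient.mk P (algebraMap A B a)) = _
    rw [hmk, AlgEquiv.symm_apply_eq]
    rfl
  have hx' : e x = 0 := hx
  rw [hx'] at h2
  have h3 : ε.symm (Ideal.Quotient.mk P x) = 0 := h2
  rw [EmbeddingLike.map_eq_zero_iff] at h3
  exact Ideal.Quotient.eq_zero_iff_mem.1 h3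

theorem ker_le_sq
    (hder : ∀ d : B →ₗ[k] k, (∀ f g, d (f * g) = e f * d g + e g * d f) →
      (∀ a : A, d (algebraMap A B a) = 0) → ∀ b, d b = 0) :
    RingHom.ker (e : B →+* k) ≤ RingHom.ker (e : B →+* k) * RingHom.ker (e : B →+* k) ⊔
      (mm A e).map (algebraMap A B) := by
  set J := (mm A e).map (algebraMap A B) with hJ
  set N := RingHom.ker (e : B →+* k) with hN
  intro x hx
  by_contra hcon
  obtain ⟨φ, hφ0, hφ⟩ := Submodule.exists_le_ker_of_notMem
    (show x ∉ (N * N ⊔ J : Ideal B).restrictScalars k from hcon)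
  have hker : ∀ z ∈ N * N ⊔ J, φ z = 0 := fun z hz => hφ hz
  have hsub : ∀ f : B, f - algebraMap k B (e f) ∈ N := by
    intro f
    show e (f - algebraMap k B (e f)) = 0
    rw [map_sub, AlgHom.commutes]
    exact sub_self _
  let d : B →ₗ[k] k :=
    { toFun := fun f => φ (f - algebraMap k B (e f))
      map_add' := by
        intro f g
        rw [← map_add, map_add e, map_add (algebraMap k B)]
        congr 1
        ring
      map_smul' := by
        intro c f
        rw [RingHom.id_apply, ← map_smul, map_smul e, smul_sub, smul_eq_mul, map_mul,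
          Algebra.smul_def c (algebraMap k B (e f))] }
  have hd0 : d x = 0 := by
    refine hder d ?_ ?_ x
    · intro f g
      show φ _ = e f * φ _ + e g * φ _
      set f0 := f - algebraMap k B (e f) with hf0
      set g0 := g - algebraMap k B (e g) with hg0
      have h3 : f * g - algebraMap k B (e (f * g)) = e f • g0 + e g • f0 + f0 * g0 := by
        rw [map_mul, map_mul, hf0, hg0, Algebra.smul_def, Algebra.smul_def]
        ring
      rw [h3, map_add, map_add, map_smul, map_smul, hker (f0 * g0)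
        (Ideal.mem_sup_left (Ideal.mul_mem_mul (hsub f) (hsub g))), add_zero, smul_eq_mul,
        smul_eq_mul]
    · intro a
      show φ _ = 0
      apply hker
      apply Ideal.mem_sup_right
      have h3 := Ideal.mem_map_of_mem (algebraMap A B) (sub_mem_mm e a)
      rw [map_sub, ← IsScalarTower.algebraMap_apply] at h3
      exact h3
  apply hφ0
  have h3 : e x = 0 := hx
  have h4 : d x = φ x := by
    show φ (x - algebraMap k B (e x)) = φ x
    rw [h3, map_zero, sub_zero]
  rw [← h4]
  exact hd0

/-- **The fibre over the point is a point.** -/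
theorem ker_le [IsAlgClosed k] [Module.Finite A B] [IsNoetherianRing A]
    (huniq : ∀ y : B →ₐ[k] k, (∀ a : A, y (algebraMap A B a) = e (algebraMap A B a)) →
      ∀ b, y b = e b)
    (hder : ∀ d : B →ₗ[k] k, (∀ f g, d (f * g) = e f * d g + e g * d f) →
      (∀ a : A, d (algebraMap A B a) = 0) → ∀ b, d b = 0) :
    RingHom.ker (e : B →+* k) ≤ (mm A e).map (algebraMap A B) := by
  have h1 := ker_le_radical e huniq
  have h2 := ker_le_sq e hder
  set J := (mm A e).map (algebraMap A B) with hJ
  set N := RingHom.ker (e : B →+* k) with hN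
  have h3 : ∀ r : ℕ, N ≤ N ^ (r + 1) ⊔ J := by
    intro r
    induction r with
    | zero => rw [zero_add, pow_one]; exact le_sup_left
    | succ r ih =>
      calc N ≤ N * N ⊔ J := h2
        _ ≤ N * (N ^ (r + 1) ⊔ J) ⊔ J := sup_le_sup_right (Ideal.mul_mono_right ih) _
        _ ≤ N ^ (r + 1 + 1) ⊔ J := by
          rw [Ideal.mul_sup, sup_assoc]
          refine sup_le_sup (le_of_eq ?_) (sup_le Ideal.mul_le_right le_rfl)
          rw [pow_succ' N (r + 1)]
  have hNB : IsNoetherianRing B := IsNoetherianRing.of_finite A B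
  obtain ⟨r, hr⟩ := Ideal.exists_pow_le_of_le_radical_of_fg h1 (IsNoetherian.noetherian N)
  calc N ≤ N ^ (r + 1) ⊔ J := h3 r
    _ ≤ J := sup_le ((Ideal.pow_le_pow_right (Nat.le_succ r)).trans hr) le_rfl

/-- A denominator which does not vanish at the point. -/
theorem exists_denom [IsAlgClosed k] [Module.Finite A B] [IsNoetherianRing A]
    (huniq : ∀ y : B →ₐ[k] k, (∀ a : A, y (algebraMap A B a) = e (algebraMap A B a)) →
      ∀ b, y b = e b)
    (hder : ∀ d : B →ₗ[k] k, (∀ f g, d (f * g) = e f * d g + e g * d f) →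
      (∀ a : A, d (algebraMap A B a) = 0) → ∀ b, d b = 0) :
    ∃ r : A, e (algebraMap A B r) = 1 ∧ ∀ b : B, ∃ a : A, algebraMap A B a = r • b := by
  have h1 := ker_le e huniq hder
  let R : Submodule A B := LinearMap.range (Algebra.linearMap A B)
  obtain ⟨r, hr1, hr2⟩ := Submodule.exists_sub_one_mem_and_smul_eq_zero_of_fg_of_le_smul
    (mm A e) (⊤ : Submodule A (B ⧸ R)) Module.Finite.fg_top (by
      intro q _
      obtain ⟨b, rfl⟩ := Submodule.mkQ_surjective R q
      have h2 : b - algebraMap k B (e b) ∈ (mm A e).map (algebraMap A B) := by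
        apply h1
        show e (b - algebraMap k B (e b)) = 0
        rw [map_sub, AlgHom.commutes]
        exact sub_self _
      have h3 : b - algebraMap k B (e b) ∈ mm A e • (⊤ : Submodule A B) := by
        rw [Ideal.smul_top_eq_map]
        exact h2
      have h4 : R.mkQ b = R.mkQ (b - algebraMap k B (e b)) := by
        rw [map_sub, eq_comm, sub_eq_self, Submodule.mkQ_apply, Submodule.Quotient.mk_eq_zero]
        exact ⟨algebraMap k A (e b), (IsScalarTower.algebraMap_apply k A B _).symm⟩
      rw [h4]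
      have h5 := Submodule.mem_map_of_mem (f := R.mkQ) h3
      rw [Submodule.map_smul''] at h5
      exact Submodule.smul_mono le_rfl le_top h5)
  refine ⟨r, ?_, fun b => ?_⟩
  · have h2 : e (algebraMap A B (r - 1)) = 0 := hr1
    rw [map_sub, map_sub, map_one, map_one] at h2
    exact sub_eq_zero.1 h2
  · have h2 := hr2 (R.mkQ b) trivial
    rw [← map_smul, Submodule.mkQ_apply, Submodule.Quotient.mk_eq_zero] at h2
    obtain ⟨a, ha⟩ := h2
    exact ⟨a, ha⟩

end

/-- Maximal ideals of finitely generated algebras over an algebraically closed field are kernels of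
homomorphisms. -/
theorem exists_point {k A : Type*} [Field k] [IsAlgClosed k] [CommRing A] [Algebra k A]
    [Algebra.FiniteType k A] (I : Ideal A) (hI : I ≠ ⊤) :
    ∃ y : A →ₐ[k] k, ∀ a ∈ I, y a = 0 := by
  obtain ⟨P, hP, hIP⟩ := Ideal.exists_le_maximal I hI
  let _ : Field (A ⧸ P) := Ideal.Quotient.field P
  have hft : Algebra.FiniteType k (A ⧸ P) :=
    Algebra.FiniteType.of_surjective (Ideal.Quotient.mkₐ k P) (Ideal.Quotient.mkₐ_surjective k P)
  have hfin : Module.Finite k (A ⧸ P) := finite_of_finite_type_of_isJacobsonRing k (A ⧸ P)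
  have hbij := IsAlgClosed.algebraMap_bijective_of_isIntegral (k := k) (K := A ⧸ P)
  let ε : k ≃ₐ[k] (A ⧸ P) := AlgEquiv.ofBijective (Algebra.ofId k (A ⧸ P)) hbij
  refine ⟨(ε.symm : (A ⧸ P) →ₐ[k] k).comp (Ideal.Quotient.mkₐ k P), fun a ha => ?_⟩
  show ε.symm (Ideal.Quotient.mk P a) = 0
  rw [Ideal.Quotient.eq_zero_iff_mem.2 (hIP ha), map_zero]

end Pool.Agent.TH119.GO
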