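import Mathlib

/-!
# Derivations of reduced rings vanish on integral elements
-/

set_option autoImplicit false

namespace Pool.Agent.TH119.GO

open Polynomial

theorem der_integral {A R : Type*} [CommRing A] [CommRing R] [Algebra A R] [IsReduced R]
    (hR : ∀ (N : ℕ) (x : R), N ≠ 0 → (N : R) * x = 0 → x = 0)
    (D : Derivation A R R) {b : R} (hb : IsIntegral A b) :
    D b = 0 := by
  obtain ⟨F, hF, hF0⟩ := hb
  have hF1 : aeval b F = 0 := hF0
  have key : ∀ j : ℕ, aeval b (derivative^[j] F) * (D b) ^ (2 * j) = 0 := by
    intro j
    induction j with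
    | zero => simpa using hF1
    | succ j ih =>
      have h1 := congrArg D ih
      rw [D.leibniz, map_zero, D.leibniz_pow, Derivation.map_aeval] at h1
      have h2 : derivative^[j + 1] F = derivative (derivative^[j] F) :=
        Function.iterate_succ_apply' _ _ _
      rw [h2]
      have h3 := congrArg (fun x => x * D b) h1
      simp only [zero_mul, smul_eq_mul, nsmul_eq_mul] at h3
      push_cast at h3
      rcases Nat.eq_zero_or_pos j with rfl | hj
      · simp only [mul_zero, pow_zero, Nat.cast_zero, zero_mul, one_mul, zero_add] at h3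
        rw [show 2 * (0 + 1) = 2 from rfl, pow_two, ← mul_assoc]
        exact h3
      · have h4 : (D b) ^ (2 * j - 1) * D b = (D b) ^ (2 * j) := by
          rw [← pow_succ]
          congr 1
          omega
        have h5 : (D b) ^ (2 * (j + 1)) = D b ^ (2 * j) * D b * D b := by
          rw [show 2 * (j + 1) = 2 * j + 1 + 1 by ring, pow_succ, pow_succ]
        rw [h5]
        linear_combination h3 - (2 * (j : R)) * D (D b) * ih -
          ((2 * (j : R)) * aeval b (derivative^[j] F) * D (D b)) * h4
  have h1 := key F.natDegree
  have h2 : derivative^[F.natDegree] F = C ((F.natDegree.factorial : ℕ) : A) := by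
    ext m
    rw [coeff_iterate_derivative, coeff_C]
    split_ifs with hm
    · subst hm
      rw [zero_add, Nat.descFactorial_self, hF.coeff_natDegree, nsmul_eq_mul, mul_one]
    · rw [coeff_eq_zero_of_natDegree_lt (by omega), smul_zero]
  rw [h2, aeval_C, map_natCast] at h1
  have h3 := hR _ _ (Nat.factorial_ne_zero _) h1
  exact IsNilpotent.eq_zero ⟨_, h3⟩

end Pool.Agent.TH119.GO
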