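import Mathlib
import Pool.Agent.TH119.OP.Trace

/-!
# The algebra of matrix coefficients of a representation
-/

set_option autoImplicit false
set_option linter.unusedSectionVars false

namespace Pool.Agent.TH119.GO

open Polynomial Matrix
open Pool.Agent.TH119.OP (SS sp mem_sp eq_zero_of_trace exists_family)

variable {G : Type*} [Group G] {k : Type*} [Field k] {m n : ℕ}

/-- Translation of functions on `G`. -/
def lt (k : Type*) [Field k] (g : G) : (G → k) →ₐ[k] (G → k) where
  toFun f h := f (g * h)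
  map_one' := rfl
  map_mul' _ _ := rfl
  map_zero' := rfl
  map_add' _ _ := rfl
  commutes' _ := rfl

theorem lt_apply (g : G) (f : G → k) (h : G) : lt k g f h = f (g * h) := rfl

theorem lt_lt (g g' : G) (f : G → k) : lt k g (lt k g' f) = lt k (g' * g) f := by
  funext h
  rw [lt_apply, lt_apply, lt_apply, mul_assoc]

theorem lt_one (f : G → k) : lt k (1 : G) f = f := by
  funext h
  rw [lt_apply, one_mul]

/-- Inversion of functions. -/
def inv' (G k : Type*) [Group G] [Field k] : (G → k) →ₐ[k] (G → k) where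
  toFun f h := f h⁻¹
  map_one' := rfl
  map_mul' _ _ := rfl
  map_zero' := rfl
  map_add' _ _ := rfl
  commutes' _ := rfl

theorem inv'_apply (f : G → k) (h : G) : inv' G k f h = f h⁻¹ := rfl

/-- The matrix coefficients. -/
def ent (ρ : G →* GL (Fin n) k) (i j : Fin n) : G → k := fun g => ρ g i j

/-- The coefficients of the inverse. -/
def ent' (ρ : G →* GL (Fin n) k) (i j : Fin n) : G → k := fun g => ρ g⁻¹ i j

theorem ent_mul (ρ : G →* GL (Fin n) k) (i j : Fin n) (g h : G) :
    ent ρ i j (g * h) = ∑ l, ent ρ i l g * ent ρ l j h := by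
  rw [ent, map_mul, Units.val_mul, Matrix.mul_apply]
  rfl

theorem ent'_mul (ρ : G →* GL (Fin n) k) (i j : Fin n) (g h : G) :
    ent' ρ i j (g * h) = ∑ l, ent' ρ i l h * ent' ρ l j g := by
  rw [ent', _root_.mul_inv_rev, map_mul, Units.val_mul, Matrix.mul_apply]
  rfl

theorem ent_one (ρ : G →* GL (Fin n) k) (i j : Fin n) :
    ent ρ i j 1 = if i = j then 1 else 0 := by
  rw [ent, map_one, Units.val_one, Matrix.one_apply]

theorem ent'_one (ρ : G →* GL (Fin n) k) (i j : Fin n) :
    ent' ρ i j 1 = if i = j then 1 else 0 := by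
  rw [ent', inv_one, map_one, Units.val_one, Matrix.one_apply]

theorem sum_ent'_ent (ρ : G →* GL (Fin n) k) (i j : Fin n) :
    ∑ l, ent' ρ i l * ent ρ l j = if i = j then 1 else 0 := by
  funext g
  rw [Finset.sum_apply]
  have h1 : (∑ l, (ent' ρ i l * ent ρ l j) g) = ((ρ (g⁻¹ * g) : GL (Fin n) k) :
      Matrix (Fin n) (Fin n) k) i j := by
    rw [map_mul, Units.val_mul, Matrix.mul_apply]
    rfl
  rw [h1, inv_mul_cancel, map_one, Units.val_one, Matrix.one_apply]
  split_ifs <;> rfl

theorem sum_ent_ent' (ρ : G →* GL (Fin n) k) (i j : Fin n) :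
    ∑ l, ent ρ i l * ent' ρ l j = if i = j then 1 else 0 := by
  funext g
  rw [Finset.sum_apply]
  have h1 : (∑ l, (ent ρ i l * ent' ρ l j) g) = ((ρ (g * g⁻¹) : GL (Fin n) k) :
      Matrix (Fin n) (Fin n) k) i j := by
    rw [map_mul, Units.val_mul, Matrix.mul_apply]
    rfl
  rw [h1, mul_inv_cancel, map_one, Units.val_one, Matrix.one_apply]
  split_ifs <;> rfl

/-- The matrix coefficients of `W` and of its inverse. -/
def gen (W : G →* GL (Fin m) k) : Set (G → k) :=
  (Set.range fun p : Fin m × Fin m => ent W p.1 p.2) ∪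
    Set.range fun p : Fin m × Fin m => ent' W p.1 p.2

/-- The algebra of the matrix coefficients. -/
def AA (W : G →* GL (Fin m) k) : Subalgebra k (G → k) := Algebra.adjoin k (gen W)

theorem ent_mem (W : G →* GL (Fin m) k) (i j : Fin m) : ent W i j ∈ AA W :=
  Algebra.subset_adjoin (Or.inl ⟨(i, j), rfl⟩)

theorem ent'_mem (W : G →* GL (Fin m) k) (i j : Fin m) : ent' W i j ∈ AA W :=
  Algebra.subset_adjoin (Or.inr ⟨(i, j), rfl⟩)

/-- Induction over the algebra `AA W` for the equality of two algebra homomorphisms. -/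
theorem AA_le_of (W : G →* GL (Fin m) k) (S : Subalgebra k (G → k))
    (h1 : ∀ i j, ent W i j ∈ S) (h2 : ∀ i j, ent' W i j ∈ S) : AA W ≤ S := by
  refine Algebra.adjoin_le ?_
  rintro _ (⟨⟨i, j⟩, rfl⟩ | ⟨⟨i, j⟩, rfl⟩)
  · exact h1 i j
  · exact h2 i j

theorem lt_ent (W : G →* GL (Fin m) k) (g : G) (i j : Fin m) :
    lt k g (ent W i j) = ∑ l, ent W i l g • ent W l j := by
  funext h
  rw [lt_apply, ent_mul, Finset.sum_apply]
  rfl

theorem lt_ent' (W : G →* GL (Fin m) k) (g : G) (i j : Fin m) :
    lt k g (ent' W i j) = ∑ l, ent' W l j g • ent' W i l := by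
  funext h
  rw [lt_apply, ent'_mul, Finset.sum_apply]
  refine Finset.sum_congr rfl fun l _ => ?_
  rw [mul_comm]
  rfl

theorem lt_mem (W : G →* GL (Fin m) k) (g : G) {f : G → k} (hf : f ∈ AA W) :
    lt k g f ∈ AA W := by
  have h : AA W ≤ (AA W).comap (lt k g) := by
    refine AA_le_of W _ (fun i j => ?_) (fun i j => ?_)
    · rw [Subalgebra.mem_comap, lt_ent]
      exact Subalgebra.sum_mem _ fun l _ => Subalgebra.smul_mem _ (ent_mem W _ _) _
    · rw [Subalgebra.mem_comap, lt_ent']
      exact Subalgebra.sum_mem _ fun l _ => Subalgebra.smul_mem _ (ent'_mem W _ _) _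
  exact h hf

theorem inv_mem (W : G →* GL (Fin m) k) {f : G → k} (hf : f ∈ AA W) :
    inv' G k f ∈ AA W := by
  have h : AA W ≤ (AA W).comap (inv' G k) := by
    refine AA_le_of W _ (fun i j => ?_) (fun i j => ?_)
    · rw [Subalgebra.mem_comap]
      exact ent'_mem W i j
    · rw [Subalgebra.mem_comap]
      have : inv' G k (ent' W i j) = ent W i j := by
        funext g
        rw [inv'_apply, ent', inv_inv]
        rfl
      rw [this]
      exact ent_mem W i j
  exact h hf

/-- The algebra generated over `AA W` by the matrix coefficients of `ρ`. -/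
def BB (W : G →* GL (Fin m) k) (ρ : G →* GL (Fin n) k) : Subalgebra (AA W) (G → k) :=
  Algebra.adjoin (AA W) (Set.range fun p : Fin n × Fin n => ent ρ p.1 p.2)

theorem entB_mem (W : G →* GL (Fin m) k) (ρ : G →* GL (Fin n) k) (i j : Fin n) :
    ent ρ i j ∈ BB W ρ :=
  Algebra.subset_adjoin ⟨(i, j), rfl⟩

theorem A_mem (W : G →* GL (Fin m) k) (ρ : G →* GL (Fin n) k) {f : G → k} (hf : f ∈ AA W) :
    f ∈ BB W ρ :=
  (BB W ρ).algebraMap_mem ⟨f, hf⟩

theorem ltB_mem (W : G →* GL (Fin m) k) (ρ : G →* GL (Fin n) k) (g : G) {f : G → k}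
    (hf : f ∈ BB W ρ) : lt k g f ∈ BB W ρ := by
  refine Algebra.adjoin_induction (R := AA W) (p := fun f _ => lt k g f ∈ BB W ρ) ?_ ?_ ?_ ?_ hf
  · rintro _ ⟨⟨i, j⟩, rfl⟩
    show lt k g (ent ρ i j) ∈ BB W ρ
    rw [lt_ent]
    refine Subalgebra.sum_mem _ fun l _ => ?_
    have : ent ρ i l g • ent ρ l j = algebraMap k (G → k) (ent ρ i l g) * ent ρ l j := by
      rw [Algebra.smul_def]
    rw [this]
    exact (BB W ρ).mul_mem (A_mem W ρ ((AA W).algebraMap_mem _)) (entB_mem W ρ _ _)
  · intro a
    exact A_mem W ρ (lt_mem W g a.2)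
  · intro x y _ _ hx hy
    rw [map_add]
    exact (BB W ρ).add_mem hx hy
  · intro x y _ _ hx hy
    rw [map_mul]
    exact (BB W ρ).mul_mem hx hy

/-- Matrices of functions. -/
def mat (ρ : G →* GL (Fin n) k) : Matrix (Fin n) (Fin n) (G → k) := Matrix.of fun i j => ent ρ i j

theorem mat_eval (ρ : G →* GL (Fin n) k) (g : G) :
    (mat ρ).map (Pi.evalRingHom (fun _ : G => k) g) = (ρ g : Matrix (Fin n) (Fin n) k) := by
  ext i j
  rfl

/-- Divisibility in the ring of functions is pointwise divisibility, for monic polynomials. -/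
theorem dvd_of_pointwise {p q : (G → k)[X]} (hp : p.Monic)
    (h : ∀ g, p.map (Pi.evalRingHom (fun _ : G => k) g) ∣ q.map (Pi.evalRingHom _ g)) :
    p ∣ q := by
  rw [← modByMonic_eq_zero_iff_dvd hp]
  ext i g
  have h1 := (modByMonic_eq_zero_iff_dvd (hp.map (Pi.evalRingHom (fun _ : G => k) g))).2 (h g)
  rw [← Polynomial.map_modByMonic _ hp] at h1
  have h2 := congrArg (fun r => coeff r i) h1
  simp only [coeff_map, coeff_zero] at h2
  rw [coeff_zero]
  exact h2

/-- The coefficients of the characteristic polynomial of `ρ(g h)` are integral over the algebra of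
the coefficients of `W`. -/
theorem integral_trace (W : G →* GL (Fin m) k) (ρ : G →* GL (Fin n) k)
    (hdiv : ∀ g, (ρ g : Matrix (Fin n) (Fin n) k).charpoly ∣
      (W g : Matrix (Fin m) (Fin m) k).charpoly) (h : G) :
    IsIntegral (AA W) (fun g => ((ρ g : Matrix (Fin n) (Fin n) k) * ρ h).trace) := by
  classical
  -- the matrices of functions
  let N : Matrix (Fin n) (Fin n) (G → k) := Matrix.of fun i j => fun g => ρ (g * h) i j
  let M : Matrix (Fin m) (Fin m) (AA W) := Matrix.of fun i j => ⟨fun g => W (g * h) i j, by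
    have : (fun g => (W (g * h) : Matrix (Fin m) (Fin m) k) i j) =
        ∑ l, (ent W l j h) • ent W i l := by
      funext g
      rw [Finset.sum_apply]
      have := ent_mul W i j g h
      rw [ent] at this
      rw [this]
      refine Finset.sum_congr rfl fun l _ => ?_
      rw [mul_comm]
      rfl
    rw [this]
    exact Subalgebra.sum_mem _ fun l _ => Subalgebra.smul_mem _ (ent_mem W _ _) _⟩
  have hN : ∀ g, N.map (Pi.evalRingHom (fun _ : G => k) g) = (ρ (g * h) : Matrix _ _ k) :=
    fun g => by ext i j; rfl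
  have hM : ∀ g, (M.map (algebraMap (AA W) (G → k))).map (Pi.evalRingHom (fun _ : G => k) g) =
      (W (g * h) : Matrix _ _ k) := fun g => by ext i j; rfl
  have hdvd : N.charpoly ∣ M.charpoly.map (algebraMap (AA W) (G → k)) := by
    rw [← Matrix.charpoly_map]
    refine dvd_of_pointwise (Matrix.charpoly_monic _) fun g => ?_
    rw [← Matrix.charpoly_map, ← Matrix.charpoly_map, hN, hM]
    exact hdiv _
  have h1 := Polynomial.isIntegral_coeff_of_dvd M.charpoly N.charpoly (Matrix.charpoly_monic _)
    (Matrix.charpoly_monic _) hdvd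
  rcases Nat.eq_zero_or_pos n with rfl | hn
  · have : (fun g => ((ρ g : Matrix (Fin 0) (Fin 0) k) * ρ h).trace) = 0 := by
      funext g
      rw [Matrix.trace_fin_zero]
      rfl
    rw [this]
    exact isIntegral_zero
  · have : Nonempty (Fin n) := ⟨⟨0, hn⟩⟩
    have h2 : (fun g => ((ρ g : Matrix (Fin n) (Fin n) k) * ρ h).trace) = N.trace := by
      funext g
      rw [← Units.val_mul, ← map_mul, Matrix.trace, Matrix.trace, Finset.sum_apply]
      rfl
    rw [h2, Matrix.trace_eq_neg_charpoly_coeff]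
    exact (h1 _).neg

/-- The matrix coefficients of `ρ` are integral over `AA W`. -/
theorem integral_ent [CharZero k] (W : G →* GL (Fin m) k) (ρ : G →* GL (Fin n) k) (hss : SS ρ)
    (hdiv : ∀ g, (ρ g : Matrix (Fin n) (Fin n) k).charpoly ∣
      (W g : Matrix (Fin m) (Fin m) k).charpoly) (i j : Fin n) :
    IsIntegral (AA W) (ent ρ i j) := by
  classical
  obtain ⟨d, g, -, hspan, hli⟩ := exists_family ρ
  -- the linear map from the span to the traces
  let L : sp ρ →ₗ[k] (Fin d → k) :=
    { toFun := fun x l => ((x : Matrix (Fin n) (Fin n) k) * ρ (g l)).trace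
      map_add' := by
        intro x y
        funext l
        simp [add_mul]
      map_smul' := by
        intro c x
        funext l
        simp }
  have hL : Function.Injective L := by
    rw [injective_iff_map_eq_zero]
    intro x hx
    have h3 : ∀ y ∈ Submodule.span k (Set.range fun l => (ρ (g l) : Matrix (Fin n) (Fin n) k)),
        ((x : Matrix (Fin n) (Fin n) k) * y).trace = 0 := by
      intro y hy
      induction hy using Submodule.span_induction with
      | mem y hy =>
        obtain ⟨l, rfl⟩ := hy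
        exact congrFun hx l
      | zero => rw [mul_zero, trace_zero]
      | add a b _ _ ha hb => rw [mul_add, trace_add, ha, hb, add_zero]
      | smul c a _ ha => rw [mul_smul_comm, trace_smul, ha, smul_zero]
    have h1 : (x : Matrix (Fin n) (Fin n) k) = 0 :=
      eq_zero_of_trace ρ hss x.2 fun g' => h3 _ (by rw [hspan]; exact mem_sp ρ g')
    exact Subtype.ext h1
  obtain ⟨L', hL'⟩ := L.exists_leftInverse_of_injective (LinearMap.ker_eq_bot.2 hL)
  -- the coefficient as a linear form in the traces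
  let c : (Fin d → k) →ₗ[k] k :=
    { toFun := fun t => ((L' t : sp ρ) : Matrix (Fin n) (Fin n) k) i j
      map_add' := by intro x y; simp
      map_smul' := by intro a x; simp }
  have hc : ∀ g', ent ρ i j g' = c (fun l => ((ρ g' : Matrix (Fin n) (Fin n) k) *
      ρ (g l)).trace) := by
    intro g'
    have h1 : L' (L ⟨ρ g', mem_sp ρ g'⟩) = ⟨ρ g', mem_sp ρ g'⟩ := by
      rw [← LinearMap.comp_apply, hL', LinearMap.id_apply]
    have h2 : c (L ⟨ρ g', mem_sp ρ g'⟩) = ent ρ i j g' := by
      show ((L' (L ⟨ρ g', mem_sp ρ g'⟩) : sp ρ) : Matrix (Fin n) (Fin n) k) i j = _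
      rw [h1]
      rfl
    rw [← h2]
    rfl
  have hsum : ent ρ i j = ∑ l, algebraMap k (G → k) (c (Pi.single l 1)) *
      fun g' => ((ρ g' : Matrix (Fin n) (Fin n) k) * ρ (g l)).trace := by
    funext g'
    rw [hc g', Finset.sum_apply]
    conv_lhs => rw [pi_eq_sum_univ' (fun l => ((ρ g' : Matrix (Fin n) (Fin n) k) *
      ρ (g l)).trace)]
    rw [map_sum]
    refine Finset.sum_congr rfl fun l _ => ?_
    rw [map_smul, smul_eq_mul, mul_comm]
    congr 2
  rw [hsum]
  refine IsIntegral.sum _ fun l _ => IsIntegral.mul ?_ (integral_trace W ρ hdiv (g l))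
  exact isIntegral_algebraMap (R := AA W) (A := G → k) (x := algebraMap k (AA W) _)

end Pool.Agent.TH119.GO
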