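import Mathlib
import Pool.Agent.TH119.GO.Der
import Pool.Agent.TH119.GO.Fun

/-!
# Points of the algebra of matrix coefficients
-/

set_option autoImplicit false
set_option linter.unusedSectionVars false

namespace Pool.Agent.TH119.GO

open Polynomial Matrix
open Pool.Agent.TH119.OP (SS sp mem_sp eq_zero_of_trace exists_family)

variable {G : Type*} [Group G] {k : Type*} [Field k] {m n : ℕ}
variable (W : G →* GL (Fin m) k) (ρ : G →* GL (Fin n) k)

/-- The matrix coefficients as elements of the algebra. -/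
def eB (i j : Fin n) : BB W ρ := ⟨ent ρ i j, entB_mem W ρ i j⟩

/-- Translation on the algebra. -/
def ltB (g : G) (f : BB W ρ) : BB W ρ := ⟨lt k g f, ltB_mem W ρ g f.2⟩

/-- Evaluation at the neutral element. -/
def ev : BB W ρ →+* k := (Pi.evalRingHom (fun _ : G => k) 1).comp (BB W ρ).toSubring.subtype

theorem ev_apply (f : BB W ρ) : ev W ρ f = (f : G → k) 1 := rfl

/-- The values on `A` are the values at the neutral element. -/
def Over (y : BB W ρ →+* k) : Prop :=
  ∀ a : AA W, y (algebraMap (AA W) (BB W ρ) a) = (a : G → k) 1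

variable {W ρ}

theorem Over.const {y : BB W ρ →+* k} (hy : Over W ρ y) (c : k) :
    y (algebraMap (AA W) (BB W ρ) (algebraMap k (AA W) c)) = c := hy _

/-- The translation by the point `y`. -/
def T (y : BB W ρ →+* k) (hy : Over W ρ y) : BB W ρ →ₐ[AA W] (G → k) where
  toFun f g := y (ltB W ρ g f)
  map_one' := by
    funext g
    exact map_one y
  map_mul' a b := by
    funext g
    exact map_mul y (ltB W ρ g a) (ltB W ρ g b)
  map_zero' := by
    funext g
    exact map_zero y
  map_add' a b := by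
    funext g
    exact map_add y (ltB W ρ g a) (ltB W ρ g b)
  commutes' a := by
    funext g
    have h1 := hy ⟨lt k g a, lt_mem W g a.2⟩
    have h2 : (lt k g (a : G → k)) 1 = (a : G → k) g := by
      rw [lt_apply, mul_one]
    exact h1.trans h2

theorem T_eB (y : BB W ρ →+* k) (hy : Over W ρ y) (i j : Fin n) :
    T y hy (eB W ρ i j) = ∑ l, ent ρ i l * algebraMap k (G → k) (y (eB W ρ l j)) := by
  funext g
  rw [Finset.sum_apply]
  have h1 : ltB W ρ g (eB W ρ i j) = ∑ l,
      algebraMap (AA W) (BB W ρ) (algebraMap k (AA W) (ent ρ i l g)) * eB W ρ l j := by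
    apply Subtype.ext
    funext h
    rw [AddSubmonoidClass.coe_finsetSum, Finset.sum_apply]
    exact ent_mul ρ i j g h
  show y (ltB W ρ g (eB W ρ i j)) = _
  rw [h1, map_sum]
  refine Finset.sum_congr rfl fun l _ => ?_
  rw [map_mul, hy.const]
  rfl

theorem const_mem (W : G →* GL (Fin m) k) (ρ : G →* GL (Fin n) k) (c : k) :
    algebraMap k (G → k) c ∈ BB W ρ :=
  A_mem W ρ ((AA W).algebraMap_mem c)

theorem T_mem (y : BB W ρ →+* k) (hy : Over W ρ y) (f : BB W ρ) : T y hy f ∈ BB W ρ := by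
  obtain ⟨f, hf⟩ := f
  refine Algebra.adjoin_induction (R := AA W)
    (p := fun f hf => T y hy ⟨f, hf⟩ ∈ BB W ρ) ?_ ?_ ?_ ?_ hf
  · rintro _ ⟨⟨i, j⟩, rfl⟩
    have := T_eB y hy i j
    show T y hy (eB W ρ i j) ∈ _
    rw [this]
    exact Subalgebra.sum_mem _ fun l _ => (BB W ρ).mul_mem (entB_mem W ρ _ _) (const_mem W ρ _)
  · intro a
    have : T y hy (algebraMap (AA W) (BB W ρ) a) = algebraMap (AA W) (G → k) a :=
      (T y hy).commutes a
    show T y hy (algebraMap (AA W) (BB W ρ) a) ∈ _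
    rw [this]
    exact (BB W ρ).algebraMap_mem a
  · intro f g hf hg h1 h2
    have : T y hy ⟨f + g, (BB W ρ).add_mem hf hg⟩ = T y hy ⟨f, hf⟩ + T y hy ⟨g, hg⟩ :=
      map_add (T y hy) ⟨f, hf⟩ ⟨g, hg⟩
    rw [this]
    exact (BB W ρ).add_mem h1 h2
  · intro f g hf hg h1 h2
    have : T y hy ⟨f * g, (BB W ρ).mul_mem hf hg⟩ = T y hy ⟨f, hf⟩ * T y hy ⟨g, hg⟩ :=
      map_mul (T y hy) ⟨f, hf⟩ ⟨g, hg⟩
    rw [this]
    exact (BB W ρ).mul_mem h1 h2

/-- The translation as an endomorphism. -/
def T' (y : BB W ρ →+* k) (hy : Over W ρ y) : BB W ρ →ₐ[AA W] BB W ρ :=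
  (T y hy).codRestrict (BB W ρ) (T_mem y hy)

theorem T'_eB (y : BB W ρ →+* k) (hy : Over W ρ y) (i j : Fin n) :
    T' y hy (eB W ρ i j) = ∑ l, eB W ρ i l *
      algebraMap (AA W) (BB W ρ) (algebraMap k (AA W) (y (eB W ρ l j))) := by
  apply Subtype.ext
  rw [AddSubmonoidClass.coe_finsetSum]
  exact T_eB y hy i j

theorem T'_pow (y : BB W ρ →+* k) (hy : Over W ρ y) (r : ℕ) (i j : Fin n) :
    (T' y hy ^ r) (eB W ρ i j) = ∑ l, eB W ρ i l *
      algebraMap (AA W) (BB W ρ) (algebraMap k (AA W)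
        (((Matrix.of fun i j => y (eB W ρ i j)) ^ r : Matrix (Fin n) (Fin n) k) l j)) := by
  classical
  induction r generalizing i j with
  | zero =>
    rw [pow_zero, pow_zero, AlgHom.one_apply]
    simp [Matrix.one_apply]
  | succ r ih =>
    rw [pow_succ', AlgHom.mul_apply, ih, map_sum]
    simp only [map_mul, AlgHom.commutes, T'_eB, Finset.sum_mul]
    rw [Finset.sum_comm]
    refine Finset.sum_congr rfl fun l _ => ?_
    rw [pow_succ', Matrix.mul_apply, map_sum, map_sum, Finset.mul_sum]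
    refine Finset.sum_congr rfl fun l' _ => ?_
    rw [map_mul, map_mul, mul_assoc]
    rfl

theorem ev_T'_pow (y : BB W ρ →+* k) (hy : Over W ρ y) (r : ℕ) (i j : Fin n) :
    ev W ρ ((T' y hy ^ r) (eB W ρ i j)) =
      ((Matrix.of fun i j => y (eB W ρ i j)) ^ r : Matrix (Fin n) (Fin n) k) i j := by
  classical
  rw [T'_pow, map_sum]
  have h1 : ∀ l, ev W ρ (eB W ρ i l * algebraMap (AA W) (BB W ρ) (algebraMap k (AA W)
      (((Matrix.of fun i j => y (eB W ρ i j)) ^ r : Matrix (Fin n) (Fin n) k) l j))) =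
      (if i = l then 1 else 0) *
      ((Matrix.of fun i j => y (eB W ρ i j)) ^ r : Matrix (Fin n) (Fin n) k) l j := by
    intro l
    rw [map_mul]
    congr 1
    exact ent_one ρ i l
  simp only [h1]
  simp

/-- A matrix with `(a - 1) ^ N = 0` and `a ^ r = a ^ s`, `r < s`, is `1`. -/
theorem eq_one_of_pow [CharZero k] {a : Matrix (Fin n) (Fin n) k} {N : ℕ}
    (h1 : (a - 1) ^ N = 0) {r s : ℕ} (hrs : r < s) (h2 : a ^ r = a ^ s) : a = 1 := by
  -- `a` is invertible
  have hu : IsUnit a := by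
    have h3 : IsNilpotent (a - 1) := ⟨N, h1⟩
    have h4 := h3.isUnit_one_add
    rwa [add_sub_cancel] at h4
  obtain ⟨t, ht0, rfl⟩ : ∃ t, 0 < t ∧ s = r + t := ⟨s - r, by omega, by omega⟩
  have h3 : a ^ t = 1 := by
    rw [pow_add] at h2
    have h4 : a ^ r * 1 = a ^ r * a ^ t := by rw [mul_one]; exact h2
    exact ((hu.pow r).mul_left_cancel h4).symm
  -- coprimality
  set q : k[X] := ∑ i ∈ Finset.range t, X ^ i with hq
  have hcop : IsCoprime ((X - C 1 : k[X]) ^ N) q := by
    refine IsCoprime.pow_left ?_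
    rw [(irreducible_X_sub_C (1 : k)).coprime_iff_not_dvd, dvd_iff_isRoot, IsRoot, hq,
      eval_finsetSum]
    simp only [eval_pow, eval_X, one_pow, Finset.sum_const, Finset.card_range, nsmul_eq_mul,
      mul_one]
    exact_mod_cast ht0.ne'
  obtain ⟨u, v, huv⟩ := hcop
  have h4 := congrArg (aeval a) huv
  rw [map_add, map_mul, map_mul, map_pow, map_sub, aeval_X, aeval_C, map_one, map_one, h1,
    mul_zero, zero_add] at h4
  have h5 : aeval a q * (a - 1) = 0 := by
    rw [hq, map_sum]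
    simp only [map_pow, aeval_X]
    rw [geom_sum_mul, h3, sub_self]
  have h6 : a - 1 = 0 := by
    calc a - 1 = (aeval a v * aeval a q) * (a - 1) := by rw [h4, one_mul]
      _ = 0 := by rw [mul_assoc, h5, mul_zero]
  exact sub_eq_zero.1 h6

/-- **Uniqueness of the point.** -/
theorem uniq [CharZero k] (hss : SS ρ)
    (hdiv : ∀ g, (ρ g : Matrix (Fin n) (Fin n) k).charpoly ∣
      (W g : Matrix (Fin m) (Fin m) k).charpoly) (y : BB W ρ →+* k) (hy : Over W ρ y)
    (i j : Fin n) : y (eB W ρ i j) = if i = j then 1 else 0 := by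
  classical
  set a : Matrix (Fin n) (Fin n) k := Matrix.of fun i j => y (eB W ρ i j) with ha
  suffices h : a = 1 by
    have := congrFun (congrFun h i) j
    rwa [Matrix.one_apply] at this
  -- the matrices over the algebras
  let N : Matrix (Fin n) (Fin n) (BB W ρ) := Matrix.of fun i j => eB W ρ i j
  let M : Matrix (Fin m) (Fin m) (AA W) := Matrix.of fun i j => ⟨ent W i j, ent_mem W i j⟩
  have hinj : Function.Injective (algebraMap (BB W ρ) (G → k)) := Subtype.val_injective
  have hN1 : N.charpoly.map (algebraMap (BB W ρ) (G → k)) = (mat ρ).charpoly :=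
    (Matrix.charpoly_map N (algebraMap (BB W ρ) (G → k))).symm
  have hM1 : (M.charpoly.map (algebraMap (AA W) (BB W ρ))).map (algebraMap (BB W ρ) (G → k)) =
      (mat W).charpoly := by
    rw [Polynomial.map_map]
    exact (Matrix.charpoly_map M _).symm
  have hdvd : N.charpoly ∣ M.charpoly.map (algebraMap (AA W) (BB W ρ)) := by
    rw [← Polynomial.map_dvd_map _ hinj (Matrix.charpoly_monic N), hN1, hM1]
    refine dvd_of_pointwise (Matrix.charpoly_monic _) fun g => ?_
    rw [← Matrix.charpoly_map, ← Matrix.charpoly_map]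
    exact hdiv g
  have h1 : a.charpoly ∣ (1 : Matrix (Fin m) (Fin m) k).charpoly := by
    have h2 := Polynomial.map_dvd y hdvd
    have h3 : N.charpoly.map y = a.charpoly := (Matrix.charpoly_map N y).symm
    have h4 : (M.charpoly.map (algebraMap (AA W) (BB W ρ))).map y =
        (1 : Matrix (Fin m) (Fin m) k).charpoly := by
      rw [Polynomial.map_map]
      have h5 : M.map (y.comp (algebraMap (AA W) (BB W ρ))) = 1 := by
        ext i j
        show y (algebraMap (AA W) (BB W ρ) ⟨ent W i j, ent_mem W i j⟩) = _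
        rw [hy, Matrix.one_apply]
        exact ent_one W i j
      rw [← h5]
      exact (Matrix.charpoly_map M _).symm
    rwa [h3, h4] at h2
  have hnil : (a - 1) ^ m = 0 := by
    have h2 : aeval a (1 : Matrix (Fin m) (Fin m) k).charpoly = 0 := by
      obtain ⟨r, hr⟩ := h1
      rw [hr, map_mul, Matrix.aeval_self_charpoly, zero_mul]
    have h3 : (1 : Matrix (Fin m) (Fin m) k).charpoly = (X - C 1) ^ m := by
      rw [Matrix.charpoly_one, Fintype.card_fin, map_one]
    rw [h3, map_pow, map_sub, aeval_X, aeval_C, map_one] at h2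
    exact h2
  -- finitely many powers
  have hint : ∀ i j, ∃ F : (AA W)[X], F.Monic ∧ eval₂ (algebraMap (AA W) (BB W ρ))
      (eB W ρ i j) F = 0 := by
    intro i j
    obtain ⟨F, hF, hF0⟩ := integral_ent W ρ hss hdiv i j
    refine ⟨F, hF, hinj ?_⟩
    rw [Polynomial.hom_eval₂, map_zero]
    exact hF0
  choose F hF hF0 using hint
  let evA : AA W →+* k := (ev W ρ).comp (algebraMap (AA W) (BB W ρ))
  have hroot : ∀ (r : ℕ) (i j), (a ^ r) i j ∈ ((F i j).map evA).roots.toFinset := by
    intro r i j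
    rw [Multiset.mem_toFinset, mem_roots ((hF i j).map _).ne_zero, IsRoot, eval_map]
    have h2 := congrArg (fun x => ev W ρ ((T' y hy ^ r) x)) (hF0 i j)
    simp only [map_zero] at h2
    have h3 : (ev W ρ).comp (((T' y hy ^ r : BB W ρ →ₐ[AA W] BB W ρ) : BB W ρ →+* BB W ρ)) (eval₂
        (algebraMap (AA W) (BB W ρ)) (eB W ρ i j) (F i j)) = 0 := h2
    rw [Polynomial.hom_eval₂] at h3
    have h4 : ((ev W ρ).comp (((T' y hy ^ r : BB W ρ →ₐ[AA W] BB W ρ) :
        BB W ρ →+* BB W ρ))).comp (algebraMap (AA W) (BB W ρ)) = evA := by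
      ext c
      show ev W ρ ((T' y hy ^ r) (algebraMap _ _ c)) = ev W ρ (algebraMap _ _ c)
      rw [AlgHom.commutes]
    rw [h4] at h3
    have h5 : (ev W ρ).comp (((T' y hy ^ r : BB W ρ →ₐ[AA W] BB W ρ) : BB W ρ →+* BB W ρ))
        (eB W ρ i j) = (a ^ r) i j := ev_T'_pow y hy r i j
    rwa [h5] at h3
  -- two equal powers
  have hfin : Finite (∀ i j : Fin n, ((F i j).map evA).roots.toFinset) := inferInstance
  obtain ⟨r, s, hrs, h2⟩ := Finite.exists_ne_map_eq_of_infinite
    (fun r : ℕ => (fun i j => ⟨(a ^ r) i j, hroot r i j⟩ :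
      ∀ i j : Fin n, ((F i j).map evA).roots.toFinset))
  have h3 : a ^ r = a ^ s := by
    ext i j
    have := congrFun (congrFun h2 i) j
    exact congrArg Subtype.val this
  rcases lt_or_gt_of_ne hrs with h4 | h4
  · exact eq_one_of_pow hnil h4 h3
  · exact eq_one_of_pow hnil h4 h3.symm

end Pool.Agent.TH119.GO
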