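import Mathlib
import Pool.Agent.TH119.GO.Pts
import Pool.Agent.TH119.GO.Abs

/-!
# Representations whose Frobenius polynomials divide those of `W` are algebraic in `W`
-/

set_option autoImplicit false
set_option linter.unusedSectionVars false

namespace Pool.Agent.TH119.GO

open Polynomial Matrix
open Pool.Agent.TH119.OP (SS sp mem_sp eq_zero_of_trace exists_family)

variable {G : Type*} [Group G] {k : Type*} [Field k] {m n : ℕ}
variable {W : G →* GL (Fin m) k} {ρ : G →* GL (Fin n) k}

/-- Two homomorphisms over the point `1` with the same values at the coefficients are equal. -/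
theorem Over.ext {y z : BB W ρ →+* k} (hy : Over W ρ y) (hz : Over W ρ z)
    (h : ∀ i j, y (eB W ρ i j) = z (eB W ρ i j)) (f : BB W ρ) : y f = z f := by
  obtain ⟨f, hf⟩ := f
  refine Algebra.adjoin_induction (R := AA W)
    (p := fun f hf => y ⟨f, hf⟩ = z ⟨f, hf⟩) ?_ ?_ ?_ ?_ hf
  · rintro _ ⟨⟨i, j⟩, rfl⟩
    exact h i j
  · intro a
    exact (hy a).trans (hz a).symm
  · intro f g hf hg h1 h2
    have e1 := RingHom.map_add y ⟨f, hf⟩ ⟨g, hg⟩
    have e2 := RingHom.map_add z ⟨f, hf⟩ ⟨g, hg⟩
    exact e1.trans ((congrArg₂ _ h1 h2).trans e2.symm)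
  · intro f g hf hg h1 h2
    have e1 := RingHom.map_mul y ⟨f, hf⟩ ⟨g, hg⟩
    have e2 := RingHom.map_mul z ⟨f, hf⟩ ⟨g, hg⟩
    exact e1.trans ((congrArg₂ _ h1 h2).trans e2.symm)

theorem over_ev : Over W ρ (ev W ρ) := fun _ => rfl

theorem ev_eB (i j : Fin n) : ev W ρ (eB W ρ i j) = if i = j then 1 else 0 := ent_one ρ i j

theorem integral_B [CharZero k] (hss : SS ρ)
    (hdiv : ∀ g, (ρ g : Matrix (Fin n) (Fin n) k).charpoly ∣
      (W g : Matrix (Fin m) (Fin m) k).charpoly) (f : BB W ρ) : IsIntegral (AA W) f := by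
  have h1 : BB W ρ ≤ integralClosure (AA W) (G → k) := by
    refine Algebra.adjoin_le ?_
    rintro _ ⟨⟨i, j⟩, rfl⟩
    exact integral_ent W ρ hss hdiv i j
  have h2 : IsIntegral (AA W) (f : G → k) := h1 f.2
  exact (isIntegral_algHom_iff (BB W ρ).val Subtype.val_injective).1 h2

theorem finite_B [CharZero k] (hss : SS ρ)
    (hdiv : ∀ g, (ρ g : Matrix (Fin n) (Fin n) k).charpoly ∣
      (W g : Matrix (Fin m) (Fin m) k).charpoly) : Module.Finite (AA W) (BB W ρ) := by
  have h : (Subalgebra.toSubmodule (BB W ρ)).FG := by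
    refine fg_adjoin_of_finite (Set.finite_range _) ?_
    rintro _ ⟨⟨i, j⟩, rfl⟩
    exact integral_ent W ρ hss hdiv i j
  exact Module.Finite.iff_fg.2 h

theorem fg_A (W : G →* GL (Fin m) k) : Algebra.FiniteType k (AA W) := by
  rw [← Subalgebra.fg_iff_finiteType]
  exact Subalgebra.fg_def.2 ⟨_, (Set.finite_range _).union (Set.finite_range _), rfl⟩

/-- Evaluation at `1`, as a homomorphism of algebras over `k`. -/
def evk (W : G →* GL (Fin m) k) (ρ : G →* GL (Fin n) k) : BB W ρ →ₐ[k] k :=
  { ev W ρ with commutes' := fun _ => rfl }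

/-- **There are no derivations over the point `1`.** -/
theorem no_der [CharZero k] (hss : SS ρ)
    (hdiv : ∀ g, (ρ g : Matrix (Fin n) (Fin n) k).charpoly ∣
      (W g : Matrix (Fin m) (Fin m) k).charpoly) (d : BB W ρ →ₗ[k] k)
    (hd : ∀ f g, d (f * g) = ev W ρ f * d g + ev W ρ g * d f)
    (hA : ∀ a : AA W, d (algebraMap (AA W) (BB W ρ) a) = 0) (f : BB W ρ) : d f = 0 := by
  -- the invariant derivation
  have hlt : ∀ (g : G) (f : BB W ρ), ev W ρ (ltB W ρ g f) = (f : G → k) g := by
    intro g f
    show (f : G → k) (g * 1) = _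
    rw [mul_one]
  let D0 : BB W ρ → (G → k) := fun f g => d (ltB W ρ g f)
  have hD0mul : ∀ f f' : BB W ρ, D0 (f * f') = (f : G → k) * D0 f' + (f' : G → k) * D0 f := by
    intro f f'
    funext g
    have e1 := hd (ltB W ρ g f) (ltB W ρ g f')
    rw [hlt, hlt] at e1
    exact e1
  have hD0add : ∀ f f' : BB W ρ, D0 (f + f') = D0 f + D0 f' := by
    intro f f'
    funext g
    exact LinearMap.map_add d (ltB W ρ g f) (ltB W ρ g f')
  have hD0A : ∀ a : AA W, D0 (algebraMap (AA W) (BB W ρ) a) = 0 := by
    intro a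
    funext g
    exact hA ⟨lt k g a, lt_mem W g a.2⟩
  have hD0e : ∀ i j, D0 (eB W ρ i j) =
      ∑ l, ent ρ i l * algebraMap k (G → k) (d (eB W ρ l j)) := by
    intro i j
    funext g
    rw [Finset.sum_apply]
    have h1 : ltB W ρ g (eB W ρ i j) = ∑ l, (ent ρ i l g) • eB W ρ l j := by
      apply Subtype.ext
      funext h
      rw [AddSubmonoidClass.coe_finsetSum, Finset.sum_apply]
      exact ent_mul ρ i j g h
    show d (ltB W ρ g (eB W ρ i j)) = _
    rw [h1, map_sum]
    refine Finset.sum_congr rfl fun l _ => ?_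
    rw [LinearMap.map_smul]
    rfl
  have hD0mem : ∀ f : BB W ρ, D0 f ∈ BB W ρ := by
    rintro ⟨f, hf⟩
    refine Algebra.adjoin_induction (R := AA W)
      (p := fun f hf => D0 ⟨f, hf⟩ ∈ BB W ρ) ?_ ?_ ?_ ?_ hf
    · rintro _ ⟨⟨i, j⟩, rfl⟩
      show D0 (eB W ρ i j) ∈ _
      rw [hD0e]
      exact Subalgebra.sum_mem _ fun l _ => (BB W ρ).mul_mem (entB_mem W ρ _ _) (const_mem W ρ _)
    · intro a
      show D0 (algebraMap (AA W) (BB W ρ) a) ∈ _
      rw [hD0A]
      exact (BB W ρ).zero_mem
    · intro f g hf hg h1 h2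
      have e := hD0add ⟨f, hf⟩ ⟨g, hg⟩
      have e2 := (BB W ρ).add_mem h1 h2
      rw [← e] at e2
      exact e2
    · intro f g hf hg h1 h2
      have e := hD0mul ⟨f, hf⟩ ⟨g, hg⟩
      have e2 := (BB W ρ).add_mem ((BB W ρ).mul_mem hf h2) ((BB W ρ).mul_mem hg h1)
      rw [← e] at e2
      exact e2
  have hsmul : ∀ (a : AA W) (f : BB W ρ), D0 (a • f) = (a : G → k) * D0 f := by
    intro a f
    have e1 := hD0mul (algebraMap (AA W) (BB W ρ) a) f
    rw [hD0A, mul_zero, add_zero] at e1
    rw [Algebra.smul_def]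
    exact e1
  let D : Derivation (AA W) (BB W ρ) (BB W ρ) := Derivation.mk'
    { toFun := fun f => ⟨D0 f, hD0mem f⟩
      map_add' := fun f g => Subtype.ext (hD0add f g)
      map_smul' := fun a f => Subtype.ext (hsmul a f) }
    (fun f g => Subtype.ext (hD0mul f g))
  have hred : IsReduced (BB W ρ) :=
    isReduced_of_injective (algebraMap (BB W ρ) (G → k)) Subtype.val_injective
  have h1 : D f = 0 := by
    have hi : IsIntegral (AA W) f := integral_B hss hdiv f
    refine der_integral (A := AA W) (R := BB W ρ) ?_ D hi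
    intro N x hN hx
    apply Subtype.ext
    funext g
    have h2 := congrFun (congrArg Subtype.val hx) g
    have h3 : (N : k) * (x : G → k) g = 0 := h2
    rcases mul_eq_zero.1 h3 with h4 | h4
    · exact absurd (Nat.cast_eq_zero.1 h4) hN
    · exact h4
  have h2 : D0 f 1 = 0 := congrFun (congrArg Subtype.val h1) 1
  have h3 : ltB W ρ 1 f = f := Subtype.ext (lt_one _)
  have h4 : D0 f 1 = d (ltB W ρ 1 f) := rfl
  rw [h4, h3] at h2
  exact h2

/-- A denominator which does not vanish at `1`. -/
theorem denom [CharZero k] [IsAlgClosed k] (hss : SS ρ)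
    (hdiv : ∀ g, (ρ g : Matrix (Fin n) (Fin n) k).charpoly ∣
      (W g : Matrix (Fin m) (Fin m) k).charpoly) :
    ∃ r ∈ AA W, r 1 = 1 ∧ ∀ b ∈ BB W ρ, r * b ∈ AA W := by
  have hfinB := finite_B hss hdiv
  have hft := fg_A W
  have hNA : IsNoetherianRing (AA W) := Algebra.FiniteType.isNoetherianRing k (AA W)
  obtain ⟨r, hr1, hr2⟩ := exists_denom (k := k) (A := AA W) (B := BB W ρ) (evk W ρ) (by
    intro y hy b
    have hy' : Over W ρ (y : BB W ρ →+* k) := hy
    exact Over.ext hy' over_ev (fun i j => (uniq hss hdiv _ hy' i j).trans (ev_eB i j).symm) b)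
    (fun d h1 h2 => no_der hss hdiv d h1 h2)
  refine ⟨r, r.2, hr1, fun b hb => ?_⟩
  obtain ⟨a, ha⟩ := hr2 ⟨b, hb⟩
  have h1 : (a : G → k) = r * b := congrArg Subtype.val ha
  rw [← h1]
  exact a.2

/-- **Theorem.** If the characteristic polynomial of `ρ(g)` divides that of `W(g)` for all `g` and
`ρ` is semisimple, over an algebraically closed field of characteristic zero, the coefficients of
`ρ(g)` are polynomials in the coefficients of `W(g)` and of its inverse. -/
theorem ent_mem_AA [CharZero k] [IsAlgClosed k] (hss : SS ρ)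
    (hdiv : ∀ g, (ρ g : Matrix (Fin n) (Fin n) k).charpoly ∣
      (W g : Matrix (Fin m) (Fin m) k).charpoly) (i j : Fin n) : ent ρ i j ∈ AA W := by
  obtain ⟨r, hr, hr1, hrB⟩ := denom hss hdiv
  -- the conductor
  let I : Ideal (AA W) :=
    { carrier := {a | ∀ b ∈ BB W ρ, (a : G → k) * b ∈ AA W}
      add_mem' := by
        intro a a' h1 h2 b hb
        have := (AA W).add_mem (h1 b hb) (h2 b hb)
        rw [← add_mul] at this
        exact this
      zero_mem' := by
        intro b _
        have : ((0 : AA W) : G → k) * b = 0 := by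
          rw [ZeroMemClass.coe_zero, zero_mul]
        rw [this]
        exact (AA W).zero_mem
      smul_mem' := by
        intro c a h b hb
        have := (AA W).mul_mem c.2 (h b hb)
        rw [← mul_assoc] at this
        exact this }
  by_contra hcon
  have hI : I ≠ ⊤ := by
    intro h
    have h1 : (1 : AA W) ∈ I := by rw [h]; trivial
    have h2 := h1 _ (entB_mem W ρ i j)
    rw [OneMemClass.coe_one, one_mul] at h2
    exact hcon h2
  have hft := fg_A W
  obtain ⟨y, hy⟩ := exists_point (k := k) I hI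
  -- translations stay in the ideal
  have htr : ∀ g : G, (⟨lt k g r, lt_mem W g hr⟩ : AA W) ∈ I := by
    intro g b hb
    have h1 := lt_mem W g (hrB _ (ltB_mem W ρ g⁻¹ hb))
    rw [map_mul, lt_lt, inv_mul_cancel, lt_one] at h1
    exact h1
  -- translation by `y`
  let TA : AA W →ₐ[k] (G → k) :=
    { toFun := fun f g => y ⟨lt k g f, lt_mem W g f.2⟩
      map_one' := by funext g; exact map_one y
      map_mul' := fun a b => by
        funext g
        exact map_mul y ⟨lt k g a, lt_mem W g a.2⟩ ⟨lt k g b, lt_mem W g b.2⟩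
      map_zero' := by funext g; exact map_zero y
      map_add' := fun a b => by
        funext g
        exact map_add y ⟨lt k g a, lt_mem W g a.2⟩ ⟨lt k g b, lt_mem W g b.2⟩
      commutes' := fun c => by
        funext g
        exact AlgHom.commutes y c }
  let eA : Fin m → Fin m → AA W := fun i j => ⟨ent W i j, ent_mem W i j⟩
  let eA' : Fin m → Fin m → AA W := fun i j => ⟨ent' W i j, ent'_mem W i j⟩
  have hTA1 : ∀ i j, TA (eA i j) = ∑ l, y (eA l j) • ent W i l := by
    intro i j
    funext g
    rw [Finset.sum_apply]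
    have h1 : (⟨lt k g (eA i j), lt_mem W g (eA i j).2⟩ : AA W) =
        ∑ l, ent W i l g • eA l j := by
      apply Subtype.ext
      rw [AddSubmonoidClass.coe_finsetSum]
      exact lt_ent W g i j
    show y ⟨lt k g (eA i j), _⟩ = _
    rw [h1, map_sum]
    refine Finset.sum_congr rfl fun l _ => ?_
    rw [map_smul, smul_eq_mul, mul_comm]
    rfl
  have hTA2 : ∀ i j, TA (eA' i j) = ∑ l, y (eA' i l) • ent' W l j := by
    intro i j
    funext g
    rw [Finset.sum_apply]
    have h1 : (⟨lt k g (eA' i j), lt_mem W g (eA' i j).2⟩ : AA W) =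
        ∑ l, ent' W l j g • eA' i l := by
      apply Subtype.ext
      rw [AddSubmonoidClass.coe_finsetSum]
      exact lt_ent' W g i j
    show y ⟨lt k g (eA' i j), _⟩ = _
    rw [h1, map_sum]
    refine Finset.sum_congr rfl fun l _ => ?_
    rw [map_smul, smul_eq_mul, mul_comm]
    rfl
  have hTAmem : ∀ f, inv' G k (TA f) ∈ AA W := by
    intro f
    have h1 : TA.range ≤ AA W := by
      have h2 : ∀ f : AA W, TA f ∈ AA W := by
        rintro ⟨f, hf⟩
        refine Algebra.adjoin_induction (R := k)
          (p := fun f hf => TA ⟨f, hf⟩ ∈ AA W) ?_ ?_ ?_ ?_ hf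
        · rintro _ (⟨⟨i, j⟩, rfl⟩ | ⟨⟨i, j⟩, rfl⟩)
          · show TA (eA i j) ∈ _
            rw [hTA1]
            exact Subalgebra.sum_mem _ fun l _ => Subalgebra.smul_mem _ (ent_mem W _ _) _
          · show TA (eA' i j) ∈ _
            rw [hTA2]
            exact Subalgebra.sum_mem _ fun l _ => Subalgebra.smul_mem _ (ent'_mem W _ _) _
        · intro c
          have : TA (algebraMap k (AA W) c) = algebraMap k (G → k) c := TA.commutes c
          show TA (algebraMap k (AA W) c) ∈ _
          rw [this]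
          exact (AA W).algebraMap_mem c
        · intro f g hf hg h1 h2
          have e := map_add TA ⟨f, hf⟩ ⟨g, hg⟩
          have e2 := (AA W).add_mem h1 h2
          rw [← e] at e2
          exact e2
        · intro f g hf hg h1 h2
          have e := map_mul TA ⟨f, hf⟩ ⟨g, hg⟩
          have e2 := (AA W).mul_mem h1 h2
          rw [← e] at e2
          exact e2
      rintro _ ⟨f, rfl⟩
      exact h2 f
    exact inv_mem W (h1 ⟨f, rfl⟩)
  let Z : AA W →ₐ[k] k := y.comp (((inv' G k).comp TA).codRestrict (AA W) hTAmem)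
  let E : AA W →ₐ[k] k := (Pi.evalAlgHom k (fun _ : G => k) 1).comp (AA W).val
  have hinvent : ∀ i j, inv' G k (ent W i j) = ent' W i j := fun i j => rfl
  have hinvent' : ∀ i j, inv' G k (ent' W i j) = ent W i j := by
    intro i j
    funext g
    rw [inv'_apply, ent', inv_inv]
    rfl
  have hZE : Z = E := by
    refine AlgHom.adjoin_ext ?_
    rintro _ (⟨⟨i, j⟩, rfl⟩ | ⟨⟨i, j⟩, rfl⟩)
    · have h1 : (((inv' G k).comp TA).codRestrict (AA W) hTAmem) (eA i j) =
          ∑ l, y (eA l j) • eA' i l := by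
        apply Subtype.ext
        rw [AddSubmonoidClass.coe_finsetSum]
        show inv' G k (TA (eA i j)) = _
        rw [hTA1, map_sum]
        refine Finset.sum_congr rfl fun l _ => ?_
        rw [map_smul, hinvent]
        rfl
      show y ((((inv' G k).comp TA).codRestrict (AA W) hTAmem) (eA i j)) = ent W i j 1
      rw [h1, map_sum]
      have h2 : ∑ l, y (y (eA l j) • eA' i l) = y (∑ l, eA' i l * eA l j) := by
        rw [map_sum]
        refine Finset.sum_congr rfl fun l _ => ?_
        rw [map_smul, map_mul, smul_eq_mul, mul_comm]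
      rw [h2]
      have h3 : ∑ l, eA' i l * eA l j = if i = j then 1 else 0 := by
        apply Subtype.ext
        rw [AddSubmonoidClass.coe_finsetSum]
        have h4 := sum_ent'_ent W i j
        split_ifs at h4 ⊢ <;> exact h4
      rw [h3, ent_one]
      split_ifs
      · exact map_one y
      · exact map_zero y
    · have h1 : (((inv' G k).comp TA).codRestrict (AA W) hTAmem) (eA' i j) =
          ∑ l, y (eA' i l) • eA l j := by
        apply Subtype.ext
        rw [AddSubmonoidClass.coe_finsetSum]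
        show inv' G k (TA (eA' i j)) = _
        rw [hTA2, map_sum]
        refine Finset.sum_congr rfl fun l _ => ?_
        rw [map_smul, hinvent']
        rfl
      show y ((((inv' G k).comp TA).codRestrict (AA W) hTAmem) (eA' i j)) = ent' W i j 1
      rw [h1, map_sum]
      have h2 : ∑ l, y (y (eA' i l) • eA l j) = y (∑ l, eA' i l * eA l j) := by
        rw [map_sum]
        refine Finset.sum_congr rfl fun l _ => ?_
        rw [map_smul, map_mul, smul_eq_mul]
      rw [h2]
      have h3 : ∑ l, eA' i l * eA l j = if i = j then 1 else 0 := by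
        apply Subtype.ext
        rw [AddSubmonoidClass.coe_finsetSum]
        have h4 := sum_ent'_ent W i j
        split_ifs at h4 ⊢ <;> exact h4
      rw [h3, ent'_one]
      split_ifs
      · exact map_one y
      · exact map_zero y
  -- the contradiction
  have h1 : TA ⟨r, hr⟩ = 0 := by
    funext g
    exact hy _ (htr g)
  have h2 : Z ⟨r, hr⟩ = 0 := by
    have h3 : (((inv' G k).comp TA).codRestrict (AA W) hTAmem) ⟨r, hr⟩ = 0 := by
      apply Subtype.ext
      show inv' G k (TA ⟨r, hr⟩) = 0
      rw [h1, map_zero]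
    exact (congrArg y h3).trans (map_zero y)
  rw [hZE] at h2
  have h3 : r 1 = 0 := h2
  rw [hr1] at h3
  exact one_ne_zero h3

end Pool.Agent.TH119.GO
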