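import Mathlib
import Pool.Agent.TH119.GO.Alg

/-!
# Irreducible representations with coefficients in `AA W` are subquotients of tensor constructions
-/

set_option autoImplicit false
set_option linter.unusedSectionVars false

namespace Pool.Agent.TH119.GO

open Polynomial Matrix
open Pool.Agent.TH119.OP (SS)

variable {G : Type*} [Group G] {k : Type*} [Field k] {m n : ℕ}

/-- The matrices of the representation `W^{⊗ a} ⊗ (W^∨)^{⊗ b}`. -/
def TT (W : G →* GL (Fin m) k) (a b : ℕ) (g : G) :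
    Matrix ((Fin a → Fin m) × (Fin b → Fin m)) ((Fin a → Fin m) × (Fin b → Fin m)) k :=
  Matrix.of fun I J => (∏ s, (W g : Matrix (Fin m) (Fin m) k) (I.1 s) (J.1 s)) *
    ∏ t, (W g⁻¹ : Matrix (Fin m) (Fin m) k) (J.2 t) (I.2 t)

theorem TT_apply (W : G →* GL (Fin m) k) (a b : ℕ) (g : G)
    (I J : (Fin a → Fin m) × (Fin b → Fin m)) :
    TT W a b g I J = (∏ s, ent W (I.1 s) (J.1 s) g) * ∏ t, ent' W (J.2 t) (I.2 t) g := rfl

theorem TT_mul (W : G →* GL (Fin m) k) (a b : ℕ) (g h : G) :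
    TT W a b (g * h) = TT W a b g * TT W a b h := by
  classical
  ext I J
  rw [Matrix.mul_apply, Fintype.sum_prod_type, TT_apply]
  simp only [ent_mul, ent'_mul, TT_apply]
  rw [Finset.prod_univ_sum, Finset.prod_univ_sum, Finset.sum_mul_sum]
  rw [Fintype.piFinset_univ, Fintype.piFinset_univ]
  refine Finset.sum_congr rfl fun x _ => Finset.sum_congr rfl fun y _ => ?_
  rw [Finset.prod_mul_distrib, Finset.prod_mul_distrib]
  ring

/-- `ρ` is a subquotient of the representation by the matrices `M`. -/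
def SubQ {ι : Type*} [Fintype ι] (ρ : G →* GL (Fin n) k) (M : G → Matrix ι ι k) : Prop :=
  ∃ (U : Submodule k (ι → k)) (hU : ∀ g, ∀ u ∈ U, (M g).mulVec u ∈ U)
    (π : U →ₗ[k] (Fin n → k)), Function.Surjective π ∧
    ∀ g (u : U), π ⟨(M g).mulVec u, hU g u u.2⟩ =
      (ρ g : Matrix (Fin n) (Fin n) k).mulVec (π u)

/-- Right translation. -/
def Rt (k : Type*) [Field k] (h : G) : (G → k) →ₗ[k] (G → k) where
  toFun f g := f (g * h)
  map_add' _ _ := rfl
  map_smul' _ _ := rfl

/-- The map from the space of the representation to functions. -/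
def Th {ι : Type*} [Fintype ι] (M : G → Matrix ι ι k) (p : ι) : (ι → k) →ₗ[k] (G → k) where
  toFun u g := (M g).mulVec u p
  map_add' u v := by
    funext g
    rw [Matrix.mulVec_add]
    rfl
  map_smul' c u := by
    funext g
    rw [Matrix.mulVec_smul]
    rfl

theorem Rt_Th {ι : Type*} [Fintype ι] (M : G → Matrix ι ι k)
    (hM : ∀ g h, M (g * h) = M g * M h) (p : ι) (h : G) (u : ι → k) :
    Rt k h (Th M p u) = Th M p ((M h).mulVec u) := by
  funext g
  show (M (g * h)).mulVec u p = (M g).mulVec ((M h).mulVec u) p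
  rw [hM, Matrix.mulVec_mulVec]

/-- The stable subspaces are trivial. -/
def Irr (ρ : G →* GL (Fin n) k) : Prop :=
  ∀ V : Submodule k (Fin n → k),
    (∀ g, ∀ x ∈ V, (ρ g : Matrix (Fin n) (Fin n) k).mulVec x ∈ V) → V = ⊥ ∨ V = ⊤

theorem Irr.ss {ρ : G →* GL (Fin n) k} (h : Irr ρ) : SS ρ := by
  intro V hV
  rcases h V hV with rfl | rfl
  · exact ⟨⊤, fun g x _ => trivial, isCompl_bot_top⟩
  · refine ⟨⊥, fun g x hx => ?_, isCompl_top_bot⟩
    rw [Submodule.mem_bot] at hx ⊢
    rw [hx, Matrix.mulVec_zero]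

/-- One step. -/
theorem step {ρ : G →* GL (Fin n) k} (hirr : Irr ρ) (p₀ : Fin n)
    {ι : Type*} [Fintype ι] (M : G → Matrix ι ι k) (hM : ∀ g h, M (g * h) = M g * M h) (p : ι)
    (Y : Submodule k (G → k)) (hY : ∀ h, ∀ f ∈ Y, Rt k h f ∈ Y)
    (h0 : ∀ v, Th (fun g => (ρ g : Matrix (Fin n) (Fin n) k)) p₀ v ∈ Y → v = 0)
    (v₀ : Fin n → k) (hv₀ : v₀ ≠ 0)
    (h1 : Th (fun g => (ρ g : Matrix (Fin n) (Fin n) k)) p₀ v₀ ∈ LinearMap.range (Th M p) ⊔ Y) :
    SubQ ρ M := by
  set R : G → Matrix (Fin n) (Fin n) k := fun g => ρ g with hR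
  have hRm : ∀ g h, R (g * h) = R g * R h := fun g h => by
    simp only [hR, map_mul, Units.val_mul]
  set Z := LinearMap.range (Th M p) ⊔ Y with hZ
  have hZst : ∀ h, ∀ f ∈ Z, Rt k h f ∈ Z := by
    intro h f hf
    obtain ⟨_, ⟨u, rfl⟩, y, hy, rfl⟩ := Submodule.mem_sup.1 hf
    rw [map_add]
    refine Submodule.add_mem _ (Submodule.mem_sup_left ?_) (Submodule.mem_sup_right (hY h y hy))
    exact ⟨(M h).mulVec u, (Rt_Th M hM p h u).symm⟩
  -- all vectors
  have hall : ∀ v, Th R p₀ v ∈ Z := by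
    have h2 := hirr (Z.comap (Th R p₀)) (by
      intro g x hx
      rw [Submodule.mem_comap] at hx ⊢
      have := hZst g _ hx
      rwa [Rt_Th R hRm] at this)
    rcases h2 with h2 | h2
    · exfalso
      have h3 : v₀ ∈ Z.comap (Th R p₀) := h1
      rw [h2, Submodule.mem_bot] at h3
      exact hv₀ h3
    · intro v
      have : v ∈ Z.comap (Th R p₀) := by rw [h2]; trivial
      exact this
  -- the maps to the quotient
  let Θ : (Fin n → k) →ₗ[k] (G → k) ⧸ Y := Y.mkQ ∘ₗ Th R p₀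
  let Θ' : (ι → k) →ₗ[k] (G → k) ⧸ Y := Y.mkQ ∘ₗ Th M p
  have hΘ : Function.Injective Θ := by
    rw [injective_iff_map_eq_zero]
    intro v hv
    apply h0
    rwa [LinearMap.comp_apply, Submodule.mkQ_apply, Submodule.Quotient.mk_eq_zero] at hv
  let e := LinearEquiv.ofInjective Θ hΘ
  let U : Submodule k (ι → k) := (LinearMap.range Θ).comap Θ'
  let π : U →ₗ[k] (Fin n → k) :=
    (e.symm : LinearMap.range Θ →ₗ[k] (Fin n → k)) ∘ₗ (Θ'.restrict fun u (hu : u ∈ U) => hu)
  have hπ : ∀ u : U, Θ (π u) = Θ' u := by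
    intro u
    have h2 : e (π u) = (Θ'.restrict fun u (hu : u ∈ U) => hu) u := e.apply_symm_apply _
    exact congrArg Subtype.val h2
  have hdiff : ∀ u : U, Th M p u - Th R p₀ (π u) ∈ Y := by
    intro u
    have h2 := hπ u
    rw [← Submodule.Quotient.mk_eq_zero, Submodule.Quotient.mk_sub]
    exact sub_eq_zero.2 h2.symm
  have hkey : ∀ (u : ι → k) (v : Fin n → k), Th M p u - Th R p₀ v ∈ Y →
      ∃ hu : u ∈ U, π ⟨u, hu⟩ = v := by
    intro u v h2
    have h3 : Θ v = Θ' u := by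
      rw [← Submodule.Quotient.mk_eq_zero, Submodule.Quotient.mk_sub] at h2
      exact (sub_eq_zero.1 h2).symm
    have hu : u ∈ U := ⟨v, h3⟩
    exact ⟨hu, hΘ ((hπ ⟨u, hu⟩).trans h3.symm)⟩
  have hkey2 : ∀ (g : G) (u : U),
      Th M p ((M g).mulVec u) - Th R p₀ ((R g).mulVec (π u)) ∈ Y := by
    intro g u
    rw [← Rt_Th M hM, ← Rt_Th R hRm, ← map_sub]
    exact hY g _ (hdiff u)
  refine ⟨U, fun g u hu => (hkey _ _ (hkey2 g ⟨u, hu⟩)).1, π, ?_, ?_⟩
  · intro v
    obtain ⟨_, ⟨u, rfl⟩, y, hy, h2⟩ := Submodule.mem_sup.1 (hall v)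
    obtain ⟨hu, h3⟩ := hkey u v (by
      rw [← h2, sub_add_cancel_left]
      exact Y.neg_mem hy)
    exact ⟨⟨u, hu⟩, h3⟩
  · intro g u
    exact (hkey _ _ (hkey2 g u)).2

/-- A finite sum. -/
theorem fin_sum {ρ : G →* GL (Fin n) k} (hirr : Irr ρ) (p₀ : Fin n) {S : Type*}
    {ι : S → Type*} [∀ s, Fintype (ι s)] (M : ∀ s, G → Matrix (ι s) (ι s) k)
    (hM : ∀ s g h, M s (g * h) = M s g * M s h) (p : ∀ s, ι s) (T : Finset S)
    (v₀ : Fin n → k) (hv₀ : v₀ ≠ 0)
    (h1 : Th (fun g => (ρ g : Matrix (Fin n) (Fin n) k)) p₀ v₀ ∈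
      ⨆ s ∈ T, LinearMap.range (Th (M s) (p s)))
    (hinj : ∀ v, Th (fun g => (ρ g : Matrix (Fin n) (Fin n) k)) p₀ v = 0 → v = 0) :
    ∃ s, SubQ ρ (M s) := by
  classical
  induction T using Finset.induction_on generalizing v₀ with
  | empty =>
    exfalso
    apply hv₀
    apply hinj
    simpa using h1
  | insert s T hs ih =>
    by_cases h2 : ∃ v, v ≠ 0 ∧ Th (fun g => (ρ g : Matrix (Fin n) (Fin n) k)) p₀ v ∈
        ⨆ s ∈ T, LinearMap.range (Th (M s) (p s))
    · obtain ⟨v, hv, h3⟩ := h2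
      exact ih v hv h3
    · push Not at h2
      rw [Finset.iSup_insert] at h1
      refine ⟨s, step hirr p₀ (M s) (hM s) (p s) (⨆ s ∈ T, LinearMap.range (Th (M s) (p s))) ?_
        ?_ v₀ hv₀ h1⟩
      · intro h f hf
        have h3 : (⨆ s ∈ T, LinearMap.range (Th (M s) (p s))) ≤
            (⨆ s ∈ T, LinearMap.range (Th (M s) (p s))).comap (Rt k h) := by
          refine iSup₂_le fun t ht => ?_
          rintro _ ⟨u, rfl⟩
          rw [Submodule.mem_comap, Rt_Th _ (hM t)]
          exact (le_iSup₂ (f := fun s (_ : s ∈ T) => LinearMap.range (Th (M s) (p s))) t ht)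
            ⟨_, rfl⟩
        exact h3 hf
      · intro v hv
        by_contra hne
        exact h2 v hne hv

/-- Products of coefficients are coefficients of tensor constructions. -/
theorem closure_le (W : G →* GL (Fin m) k) {f : G → k} (hf : f ∈ Submonoid.closure (gen W)) :
    ∃ (a b : ℕ) (I J : (Fin a → Fin m) × (Fin b → Fin m)), f = fun g => TT W a b g I J := by
  induction hf using Submonoid.closure_induction with
  | mem f hf =>
    rcases hf with ⟨⟨i, j⟩, rfl⟩ | ⟨⟨i, j⟩, rfl⟩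
    · refine ⟨1, 0, (fun _ => i, Fin.elim0), (fun _ => j, Fin.elim0), ?_⟩
      funext g
      rw [TT_apply]
      simp
    · refine ⟨0, 1, (Fin.elim0, fun _ => j), (Fin.elim0, fun _ => i), ?_⟩
      funext g
      rw [TT_apply]
      simp
  | one =>
    refine ⟨0, 0, (Fin.elim0, Fin.elim0), (Fin.elim0, Fin.elim0), ?_⟩
    funext g
    rw [TT_apply]
    simp
  | mul f f' _ _ h1 h2 =>
    obtain ⟨a, b, I, J, rfl⟩ := h1
    obtain ⟨a', b', I', J', rfl⟩ := h2
    refine ⟨a + a', b + b', (Fin.append I.1 I'.1, Fin.append I.2 I'.2),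
      (Fin.append J.1 J'.1, Fin.append J.2 J'.2), ?_⟩
    funext g
    rw [Pi.mul_apply, TT_apply, TT_apply, TT_apply, Fin.prod_univ_add, Fin.prod_univ_add]
    simp only [Fin.append_left, Fin.append_right]
    ring

/-- **Theorem.** An irreducible representation whose coefficients are polynomials in the
coefficients of `W` and its inverse is a subquotient of some `W^{⊗ a} ⊗ (W^∨)^{⊗ b}`. -/
theorem exists_subQ (hn : 0 < n) (W : G →* GL (Fin m) k) {ρ : G →* GL (Fin n) k} (hirr : Irr ρ)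
    (h : ∀ i j, ent ρ i j ∈ AA W) : ∃ a b, SubQ ρ (TT W a b) := by
  classical
  set p₀ : Fin n := ⟨0, hn⟩ with hp₀
  let S := Σ ab : ℕ × ℕ, (Fin ab.1 → Fin m) × (Fin ab.2 → Fin m)
  have h1 : ent ρ p₀ p₀ ∈ Submodule.span k (Submonoid.closure (gen W) : Set (G → k)) := by
    rw [← Algebra.adjoin_eq_span]
    exact h p₀ p₀
  have h2 : Submodule.span k (Submonoid.closure (gen W) : Set (G → k)) ≤
      ⨆ s : S, LinearMap.range (Th (TT W s.1.1 s.1.2) s.2) := by
    rw [Submodule.span_le]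
    intro f hf
    obtain ⟨a, b, I, J, rfl⟩ := closure_le W hf
    refine (le_iSup (fun s : S => LinearMap.range (Th (TT W s.1.1 s.1.2) s.2)) ⟨(a, b), I⟩) ?_
    refine ⟨Pi.single J 1, ?_⟩
    funext g
    show (TT W a b g).mulVec (Pi.single J 1) I = TT W a b g I J
    rw [Matrix.mulVec_single_one]
    rfl
  have h3 := h2 h1
  obtain ⟨T, hT⟩ := Submodule.exists_finset_of_mem_iSup _ h3
  have hTh : Th (fun g => (ρ g : Matrix (Fin n) (Fin n) k)) p₀ (Pi.single p₀ 1) =
      ent ρ p₀ p₀ := by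
    funext g
    show (ρ g : Matrix (Fin n) (Fin n) k).mulVec (Pi.single p₀ 1) p₀ = _
    rw [Matrix.mulVec_single_one]
    rfl
  obtain ⟨s, hs⟩ := fin_sum hirr p₀ (fun s : S => TT W s.1.1 s.1.2)
    (fun s g h => TT_mul W _ _ g h) (fun s => s.2) T (Pi.single p₀ 1) (by
      intro h4
      have := congrFun h4 p₀
      rw [Pi.single_eq_same, Pi.zero_apply] at this
      exact one_ne_zero this) (by rw [hTh]; exact hT) (by
      intro v hv
      have h4 := hirr (LinearMap.ker (Th (fun g => (ρ g : Matrix (Fin n) (Fin n) k)) p₀)) (by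
        intro g x hx
        rw [LinearMap.mem_ker] at hx ⊢
        rw [← Rt_Th _ (fun g h => by rw [map_mul, Units.val_mul]), hx, map_zero])
      rcases h4 with h4 | h4
      · have : v ∈ LinearMap.ker (Th (fun g => (ρ g : Matrix (Fin n) (Fin n) k)) p₀) := hv
        rwa [h4, Submodule.mem_bot] at this
      · exfalso
        have h5 : (Pi.single p₀ 1 : Fin n → k) ∈
            LinearMap.ker (Th (fun g => (ρ g : Matrix (Fin n) (Fin n) k)) p₀) := by
          rw [h4]; trivial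
        rw [LinearMap.mem_ker, hTh] at h5
        have h6 := congrFun h5 1
        rw [ent_one, if_pos rfl] at h6
        exact one_ne_zero h6)
  exact ⟨_, _, hs⟩

/-- Characteristic polynomials are multiplicative. -/
theorem charpoly_mul [Infinite k] {V : Type*} [AddCommGroup V] [Module k V]
    [Module.Finite k V] (f : V →ₗ[k] V) (U : Submodule k V) (hf : U ≤ U.comap f) :
    f.charpoly = (f.restrict hf).charpoly * (U.mapQ U f hf).charpoly := by
  refine Polynomial.funext fun t => ?_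
  rw [eval_mul, LinearMap.eval_charpoly, LinearMap.eval_charpoly, LinearMap.eval_charpoly]
  have h1 : U ≤ U.comap (algebraMap k (Module.End k V) t - f) := by
    intro u hu
    rw [Submodule.mem_comap, LinearMap.sub_apply, Module.algebraMap_end_apply]
    exact U.sub_mem (U.smul_mem t hu) (hf hu)
  rw [LinearMap.det_eq_det_mul_det U _ h1]
  congr 2
  ext q
  simp

/-- The characteristic polynomials of a subquotient divide. -/
theorem SubQ.dvd [Infinite k] {ι : Type*} [Fintype ι] [DecidableEq ι] {ρ : G →* GL (Fin n) k}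
    {M : G → Matrix ι ι k} (h : SubQ ρ M) (g : G) :
    (ρ g : Matrix (Fin n) (Fin n) k).charpoly ∣ (M g).charpoly := by
  classical
  obtain ⟨U, hU, π, hπ, he⟩ := h
  let f : (ι → k) →ₗ[k] (ι → k) := Matrix.toLin' (M g)
  have hfU : U ≤ U.comap f := fun u hu => by
    rw [Submodule.mem_comap, Matrix.toLin'_apply]
    exact hU g u hu
  let f₁ : U →ₗ[k] U := f.restrict hfU
  have hf₁ : ∀ u, π (f₁ u) = (ρ g : Matrix (Fin n) (Fin n) k).mulVec (π u) := fun u => he g u
  have hfN : LinearMap.ker π ≤ (LinearMap.ker π).comap f₁ := by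
    intro u hu
    rw [Submodule.mem_comap, LinearMap.mem_ker, hf₁, LinearMap.mem_ker.1 hu,
      Matrix.mulVec_zero]
  let ε : (U ⧸ LinearMap.ker π) ≃ₗ[k] (Fin n → k) := π.quotKerEquivOfSurjective hπ
  have h3 : ε.conj ((LinearMap.ker π).mapQ (LinearMap.ker π) f₁ hfN) =
      Matrix.toLin' (ρ g : Matrix (Fin n) (Fin n) k) := by
    refine LinearMap.ext fun x => ?_
    obtain ⟨u, rfl⟩ := hπ x
    have h4 : ε.symm (π u) = Submodule.Quotient.mk u := by
      rw [LinearEquiv.symm_apply_eq]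
      rfl
    rw [LinearEquiv.conj_apply_apply, h4, Submodule.mapQ_apply, Matrix.toLin'_apply, ← hf₁]
    rfl
  have h1 : (M g).charpoly = f.charpoly := (Matrix.charpoly_toLin' (M g)).symm
  have h2 : f₁.charpoly = _ := charpoly_mul f₁ (LinearMap.ker π) hfN
  have h5 : ((LinearMap.ker π).mapQ (LinearMap.ker π) f₁ hfN).charpoly =
      (ρ g : Matrix (Fin n) (Fin n) k).charpoly := by
    rw [← LinearEquiv.charpoly_conj ε, h3, Matrix.charpoly_toLin']
  rw [h1, charpoly_mul f U hfU, show (f.restrict hfU).charpoly = f₁.charpoly from rfl, h2, h5]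
  exact Dvd.intro_left _ rfl |>.mul_right _

end Pool.Agent.TH119.GO
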