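import Mathlib
import Pool.Agent.TH119.GO.Sub
import Pool.Agent.TH119.DS.Gal
import Pool.Agent.TH119.IR.Main

/-!
# Divisibility at the Frobenius elements
-/

set_option autoImplicit false
set_option linter.unusedSectionVars false

namespace Pool.Agent.TH119.GO

open NumberField IsDedekindDomain Polynomial Matrix Topology Filter
open Pool.Agent.W401.Cheb (GK IsFrob)
open Pool.Agent.W540.BE (upto mem_upto)
open Pool.Agent.TH119.DS (freq)

variable {K : Type} [Field K] [NumberField K]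

/-- The set `F` of primes has density zero. -/
def Thin (F : Set (HeightOneSpectrum (𝓞 K))) : Prop :=
  ∀ ε : ℝ, 0 < ε → ∃ b : ℝ, ∀ (N : ℕ) (T : Finset (HeightOneSpectrum (𝓞 K))),
    (∀ v ∈ T, Ideal.absNorm v.asIdeal ≤ N ∧ v ∈ F) → (T.card : ℝ) ≤ ε * Nat.primeCounting N + b

theorem exists_frob_mem (U : Subgroup (GK K)) [U.Normal] (hU : IsOpen (U : Set (GK K)))
    (F : Set (HeightOneSpectrum (𝓞 K))) (hF : Thin F) (σ : GK K) : ∃ v ∉ F, ∃ τ, IsFrob v τ ∧
      (QuotientGroup.mk τ : GK K ⧸ U) = QuotientGroup.mk σ := by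
  classical
  have hfrob := (Pool.Agent.W401.Frob.main K).1
  choose s hs using hfrob
  set D : Set (GK K ⧸ U) := {q | ∃ g : GK K ⧸ U, q = g * QuotientGroup.mk σ * g⁻¹} with hD
  by_contra hcon
  push Not at hcon
  have hfin : Finite (GK K ⧸ U) := Subgroup.quotient_finite_of_isOpen U hU
  have hcard : (0 : ℝ) < Nat.card (GK K ⧸ U) := by exact_mod_cast Nat.card_pos
  have h2 : (QuotientGroup.mk σ : GK K ⧸ U) ∈ D := ⟨1, by group⟩
  have h3 : 0 < D.ncard := (Set.ncard_pos (Set.toFinite D)).2 ⟨_, h2⟩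
  have h4 : (1 : ℝ) ≤ D.ncard := by exact_mod_cast h3
  obtain ⟨b, hb⟩ := hF (1 / (2 * Nat.card (GK K ⧸ U))) (by positivity)
  have h1 := freq U hU s hs D (by
    rintro _ ⟨g, rfl⟩ g'
    exact ⟨g' * g, by group⟩) (1 / (2 * Nat.card (GK K ⧸ U))) b (by
    intro N T hT
    refine hb N T fun v hv => ⟨(hT v hv).1, ?_⟩
    by_contra hvF
    obtain ⟨g, hg⟩ := (hT v hv).2
    obtain ⟨γ, rfl⟩ := QuotientGroup.mk_surjective g
    apply hcon v hvF (γ⁻¹ * s v * γ⁻¹⁻¹)
    · exact (Pool.Agent.W401.Frob.main K).2.2 v _ _ (hs v)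
    · rw [inv_inv, QuotientGroup.mk_mul, QuotientGroup.mk_mul, hg, QuotientGroup.mk_inv]
      group)
  have h5 : (1 : ℝ) / (2 * Nat.card (GK K ⧸ U)) * Nat.card (GK K ⧸ U) = 1 / 2 := by
    field_simp
  rw [h5] at h1
  linarith

/-- A continuous function which vanishes at the Frobenius elements outside a thin set vanishes. -/
theorem eq_of_frob {k : Type} [Field k] [TopologicalSpace k]
    [T2Space k] (f : GK K → k) (hf : Continuous f)
    (F : Set (HeightOneSpectrum (𝓞 K))) (hF : Thin F)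
    (h : ∀ v ∉ F, ∀ τ, IsFrob v τ → f τ = 0) : ∀ σ, f σ = 0 := by
  intro σ
  by_contra hne
  have h2 : ∀ᶠ x in 𝓝 σ, f x ≠ 0 := hf.continuousAt.eventually_ne hne
  have h3 : ∀ᶠ x in 𝓝 (1 : GK K), f (σ * x) ≠ 0 := by
    have h4 : Tendsto (fun x => σ * x) (𝓝 (1 : GK K)) (𝓝 σ) := by
      have := (continuous_const_mul σ).tendsto (1 : GK K)
      rwa [mul_one] at this
    exact h4.eventually h2
  obtain ⟨V, hV, hVo, hV1⟩ := eventually_nhds_iff.1 h3
  obtain ⟨W, hW⟩ := ProfiniteGrp.exist_openNormalSubgroup_sub_open_nhds_of_one hVo hV1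
  obtain ⟨v, hv, τ, hτ, hτσ⟩ := exists_frob_mem (W : Subgroup (GK K)) W.isOpen' F hF σ
  have h4 : σ⁻¹ * τ ∈ (W : Subgroup (GK K)) := QuotientGroup.eq.1 hτσ.symm
  have h5 := hV _ (hW h4)
  rw [mul_inv_cancel_left] at h5
  exact h5 (h v hv τ hτ)

theorem Thin.union {F F' : Set (HeightOneSpectrum (𝓞 K))} (h : Thin F) (h' : Thin F') :
    Thin (F ∪ F') := by
  classical
  intro ε hε
  obtain ⟨b, hb⟩ := h (ε / 2) (by positivity)
  obtain ⟨b', hb'⟩ := h' (ε / 2) (by positivity)
  refine ⟨b + b', fun N T hT => ?_⟩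
  have h1 := hb N (T.filter fun v => v ∈ F) fun v hv => by
    rw [Finset.mem_filter] at hv
    exact ⟨(hT v hv.1).1, hv.2⟩
  have h2 := hb' N (T.filter fun v => ¬ v ∈ F) fun v hv => by
    rw [Finset.mem_filter] at hv
    exact ⟨(hT v hv.1).1, (hT v hv.1).2.resolve_left hv.2⟩
  have h3 : (T.card : ℝ) = (T.filter fun v => v ∈ F).card + (T.filter fun v => ¬ v ∈ F).card := by
    exact_mod_cast (Finset.card_filter_add_card_filter_not _).symm
  linarith

/-- Density zero in terms of quotients. -/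
theorem thin_of_tendsto (F : Set (HeightOneSpectrum (𝓞 K)))
    (h : Tendsto (fun N : ℕ =>
      ({v : HeightOneSpectrum (𝓞 K) | Ideal.absNorm v.asIdeal ≤ N ∧ v ∈ F}.ncard : ℝ) /
      {v : HeightOneSpectrum (𝓞 K) | Ideal.absNorm v.asIdeal ≤ N}.ncard) atTop (𝓝 0)) :
    Thin F := by
  classical
  have hset : ∀ N : ℕ, {v : HeightOneSpectrum (𝓞 K) | Ideal.absNorm v.asIdeal ≤ N} =
      (upto K N : Set (HeightOneSpectrum (𝓞 K))) := by
    intro N
    ext v
    rw [Set.mem_ofPred_eq, Finset.mem_coe, mem_upto]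
    rfl
  have hset2 : ∀ N : ℕ, {v : HeightOneSpectrum (𝓞 K) | Ideal.absNorm v.asIdeal ≤ N ∧ v ∈ F} =
      ((upto K N).filter fun v => v ∈ F : Finset (HeightOneSpectrum (𝓞 K))) := by
    intro N
    ext v
    rw [Set.mem_ofPred_eq, Finset.mem_coe, Finset.mem_filter, mem_upto]
    rfl
  have h1 : Tendsto (fun N : ℕ => (((upto K N).filter fun v => v ∈ F).card : ℝ) /
      (upto K N).card) atTop (𝓝 0) := by
    refine h.congr fun N => ?_
    rw [hset, hset2, Set.ncard_coe_finset, Set.ncard_coe_finset]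
  have hcard : Tendsto (fun N : ℕ => ((upto K N).card : ℝ) /
      (Nat.primeCounting N : ℝ)) atTop (𝓝 1) := Pool.Agent.TH119.IR.tendsto_card K
  have hpi : Tendsto (fun N : ℕ => (Nat.primeCounting N : ℝ)) atTop atTop :=
    tendsto_natCast_atTop_atTop.comp Nat.tendsto_primeCounting
  intro ε hε
  have h2 : ∀ᶠ N : ℕ in atTop, (((upto K N).filter fun v => v ∈ F).card : ℝ) ≤
      ε * Nat.primeCounting N := by
    filter_upwards [h1.eventually_lt_const (show (0 : ℝ) < ε / 2 by positivity),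
      hcard.eventually_lt_const (show (1 : ℝ) < 2 by norm_num),
      hcard.eventually_const_lt (show (0 : ℝ) < 1 by norm_num),
      hpi.eventually_gt_atTop 0] with N h3 h4 h5 h6
    have h7 : (0 : ℝ) < (upto K N).card := by
      rcases (Nat.cast_nonneg (upto K N).card : (0 : ℝ) ≤ _).lt_or_eq with h8 | h8
      · exact h8
      · rw [← h8, zero_div] at h5
        exact absurd h5 (lt_irrefl _)
    rw [div_lt_iff₀ h7] at h3
    rw [div_lt_iff₀ h6] at h4
    nlinarith
  obtain ⟨N₀, hN₀⟩ := eventually_atTop.1 h2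
  refine ⟨(upto K N₀).card, fun N T hT => ?_⟩
  have hle : ∀ M : ℕ, N ≤ M → T ⊆ (upto K M).filter fun v => v ∈ F := by
    intro M hM v hv
    rw [Finset.mem_filter, mem_upto]
    exact ⟨(hT v hv).1.trans hM, (hT v hv).2⟩
  rcases le_or_gt N₀ N with h3 | h3
  · have h4 : (T.card : ℝ) ≤ ((upto K N).filter fun v => v ∈ F).card := by
      exact_mod_cast Finset.card_le_card (hle N le_rfl)
    have h5 := hN₀ N h3
    have h6 : (0 : ℝ) ≤ (upto K N₀).card := Nat.cast_nonneg _
    linarith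
  · have h4 : (T.card : ℝ) ≤ (upto K N₀).card := by
      have : T.card ≤ (upto K N₀).card :=
        (Finset.card_le_card (hle N₀ h3.le)).trans (Finset.card_filter_le _ _)
      exact_mod_cast this
    have h5 : (0 : ℝ) ≤ ε * Nat.primeCounting N := by positivity
    linarith

variable {n m : ℕ} {k : Type} [Field k] [CharZero k] [TopologicalSpace k] [IsTopologicalRing k]
  [T2Space k]

/-- A continuous representation as a matrix over the ring of continuous functions. -/
noncomputable def cmat {n : ℕ} (ρ : GK K →* GL (Fin n) k)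
    (hρ : Continuous fun g => (ρ g : Matrix (Fin n) (Fin n) k)) :
    Matrix (Fin n) (Fin n) C(GK K, k) :=
  Matrix.of fun i j => ⟨fun g => ρ g i j, hρ.matrix_elem i j⟩

/-- Evaluation of continuous functions. -/
noncomputable def cev (g : GK K) : C(GK K, k) →+* k where
  toFun f := f g
  map_one' := rfl
  map_mul' _ _ := rfl
  map_zero' := rfl
  map_add' _ _ := rfl

theorem cmat_charpoly {n : ℕ} (ρ : GK K →* GL (Fin n) k)
    (hρ : Continuous fun g => (ρ g : Matrix (Fin n) (Fin n) k)) (g : GK K) :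
    (cmat ρ hρ).charpoly.map (cev g) = (ρ g : Matrix (Fin n) (Fin n) k).charpoly := by
  rw [← Matrix.charpoly_map]
  rfl

/-- If the characteristic polynomials divide at the Frobenius elements outside a finite set, they
divide everywhere. -/
theorem dvd_of_frob (ρ : GK K →* GL (Fin n) k)
    (hρ : Continuous fun g => (ρ g : Matrix (Fin n) (Fin n) k)) (W : GK K →* GL (Fin m) k)
    (hW : Continuous fun g => (W g : Matrix (Fin m) (Fin m) k))
    (T : Set (HeightOneSpectrum (𝓞 K))) (hT : Thin T)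
    (h : ∀ v ∉ T, ∀ τ, IsFrob v τ → (ρ τ : Matrix (Fin n) (Fin n) k).charpoly ∣
      (W τ : Matrix (Fin m) (Fin m) k).charpoly) (g : GK K) :
    (ρ g : Matrix (Fin n) (Fin n) k).charpoly ∣ (W g : Matrix (Fin m) (Fin m) k).charpoly := by
  set r := (cmat W hW).charpoly %ₘ (cmat ρ hρ).charpoly with hr
  have hrg : ∀ g, r.map (cev g) = (W g : Matrix (Fin m) (Fin m) k).charpoly %ₘ
      (ρ g : Matrix (Fin n) (Fin n) k).charpoly := by
    intro g
    rw [hr, Polynomial.map_modByMonic _ (Matrix.charpoly_monic _), cmat_charpoly, cmat_charpoly]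
  rw [← modByMonic_eq_zero_iff_dvd (Matrix.charpoly_monic _), ← hrg]
  ext i
  rw [coeff_map, coeff_zero]
  refine eq_of_frob (fun g => r.coeff i g) (r.coeff i).continuous T hT ?_ g
  intro v hv τ hτ
  have h1 := (modByMonic_eq_zero_iff_dvd (Matrix.charpoly_monic _)).2 (h v hv τ hτ)
  rw [← hrg] at h1
  have h2 := congrArg (fun q => coeff q i) h1
  simp only [coeff_map, coeff_zero] at h2
  exact h2

/-- **The main theorem.** -/
theorem main [IsAlgClosed k] (hn : 0 < n) (ρ : GK K →* GL (Fin n) k)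
    (hρ : Continuous fun g => (ρ g : Matrix (Fin n) (Fin n) k)) (W : GK K →* GL (Fin m) k)
    (hW : Continuous fun g => (W g : Matrix (Fin m) (Fin m) k)) (hirr : Irr ρ)
    (T : Set (HeightOneSpectrum (𝓞 K))) (hT : Thin T)
    (h : ∀ v ∉ T, ∀ τ, IsFrob v τ → (ρ τ : Matrix (Fin n) (Fin n) k).charpoly ∣
      (W τ : Matrix (Fin m) (Fin m) k).charpoly) : ∃ a b, SubQ ρ (TT W a b) :=
  exists_subQ hn W hirr
    (ent_mem_AA hirr.ss (dvd_of_frob ρ hρ W hW T hT h))

end Pool.Agent.TH119.GO
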